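import Pool.Agent.FCK.Pa
import Pool.Agent.FC7.StD

/-! # Star check: the tables of the letters are correct -/

set_option maxRecDepth 1000000

namespace Pool.FCK

open Pool.FCS Pool.FC7

noncomputable section

theorem wl_pos (l : Nat) : 1 ≤ wl l := by
  unfold wl
  split_ifs <;> norm_num

theorem length_le_wl (c : List Nat) : c.length ≤ (c.map wl).sum := by
  induction c with
  | nil => simp
  | cons x t ih =>
    rw [List.length_cons, List.map_cons, List.sum_cons]
    have := wl_pos x
    omega

theorem glw_len {c : List Nat} (h : glw c = true) : 4 ≤ c.length ∧ c.length ≤ 6 := by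
  unfold glw at h
  simp only [Bool.and_eq_true, decide_eq_true_eq] at h
  have := length_le_wl c
  omega

theorem lal_lt {x : Nat} (h : lal x = true) : x < 27 := by
  unfold lal at h
  simp only [Bool.and_eq_true, decide_eq_true_eq, Bool.or_eq_true] at h
  omega

/-- a relation for all compatible letters -/
theorem cmpf_all {f : Nat → Nat → Bool} (h : ((List.range 27).all fun x =>
    (List.range 27).all fun y => !cmpf x y || f x y) = true) {x y : Nat}
    (hxy : cmpf x y = true) : f x y = true := by
  have h0 := hxy
  unfold cmpf at h0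
  rw [Bool.and_eq_true, Bool.and_eq_true] at h0
  rw [List.all_eq_true] at h
  have h1 := h x (List.mem_range.2 (lal_lt h0.1.1))
  rw [List.all_eq_true] at h1
  have h2 := h1 y (List.mem_range.2 (lal_lt h0.1.2))
  rw [hxy] at h2
  simpa using h2

theorem glw_lal {c : List Nat} (h : glw c = true) : ∀ x ∈ c, lal x = true := by
  unfold glw at h
  simp only [Bool.and_eq_true, decide_eq_true_eq, List.all_eq_true] at h
  exact h.1.1.2

theorem getD_mem {c : List Nat} {i : Nat} (h : i < c.length) : c.getD i 0 ∈ c := by
  rw [List.getD_eq_getElem _ _ h]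
  exact List.getElem_mem _

/-- letters of the centres -/
def ccf (x : Nat) : Nat :=
  if x = 8 ∨ x = 15 ∨ x = 16 then 0 else if x = 13 ∨ x = 14 then 2 else if x = 12 then 11 else x

/-- blind letters -/
def blf (y : Nat) : Nat := tdg bmT (y + 1) - 1

/-- blind letter of a letter -/
def blx (x : Nat) : Nat := blf (ccf x)

/-- letters of vertices with the slack `k` -/
def okl (l k : Nat) : Bool :=
  decide (k = 0) || (!lfu l && !decide (l = 15) && !decide (l = 16))

theorem lal_all {f : Nat → Bool} (h : ((List.range 27).all fun x => !lal x || f x) = true)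
    {x : Nat} (hx : lal x = true) : f x = true := by
  rw [List.all_eq_true] at h
  have h1 := h x (List.mem_range.2 (lal_lt hx))
  rw [hx] at h1
  simpa using h1

theorem tb_testBit (m i : Nat) : tb m i = m.testBit i := by
  show Nat.beq ((m >>> i) &&& 1) 1 = _
  rw [Nat.testBit, Nat.and_comm, Nat.one_and_eq_mod_two]
  rcases Nat.mod_two_eq_zero_or_one (m >>> i) with h | h <;> rw [h] <;> rfl

theorem tb_big {m n i : Nat} (hm : m < 2 ^ n) (hi : n ≤ i) : tb m i = false := by
  rw [tb_testBit]
  exact Nat.testBit_lt_two_pow (lt_of_lt_of_le hm (Nat.pow_le_pow_right (by norm_num) hi))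

theorem lg_big {v : Nat} (hv : 46 ≤ v) : lg v = [] := by
  have h1 : Nat.ble v 26 = false := by
    rw [← Bool.not_eq_true]; intro h
    have := Nat.le_of_ble_eq_true h; omega
  have h2 : ∀ n < 46, Nat.beq v n = false := by
    intro n hn
    rw [← Bool.not_eq_true]; intro h
    have := Nat.eq_of_beq_eq_true h; omega
  unfold lg
  rw [h1, h2 32 (by norm_num), h2 33 (by norm_num), h2 34 (by norm_num)]
  rfl

theorem lg_lt {v x : Nat} (h : x ∈ lg v) : v < 46 := by
  by_contra hc
  rw [lg_big (by omega)] at h
  simp at h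

/-- the letters -/
theorem let_all {x : Nat} (hx : lal x = true) : ccf x < 31 ∧ blf (ccf x) < 31 ∧
    lsol (ccf x) = lsol x ∧ tb smT (ccf x + 1) = lsol x ∧ tb lgT (ccf x + 1) = lng x ∧
    tdg bmT (ccf x + 1) = blf (ccf x) + 1 ∧ tb smT (blf (ccf x) + 1) = lsol x ∧
    x ∈ lg (vl (ccf x + 1)) ∧ tdg wmT (ccf x + 1) = wl x := by
  have h := lal_all (f := fun x => decide (ccf x < 31) && decide (blf (ccf x) < 31) &&
    (lsol (ccf x) == lsol x) && (tb smT (ccf x + 1) == lsol x) &&
    (tb lgT (ccf x + 1) == lng x) && decide (tdg bmT (ccf x + 1) = blf (ccf x) + 1) &&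
    (tb smT (blf (ccf x) + 1) == lsol x) && (lg (vl (ccf x + 1))).elem x &&
    decide (tdg wmT (ccf x + 1) = wl x)) (by decide +kernel) hx
  simp only [Bool.and_eq_true, decide_eq_true_eq, beq_iff_eq] at h
  obtain ⟨⟨⟨⟨⟨⟨⟨⟨h1, h2⟩, h3⟩, h4⟩, h5⟩, h6⟩, h7⟩, h8⟩, h9⟩ := h
  exact ⟨h1, h2, h3, h4, h5, h6, h7, List.elem_iff.1 h8, h9⟩

theorem leb_all {x : Nat} (hx : lal x = true) {g : Nat} (hg : leb g (blf (ccf x)) = true) :
    lle g x = true := by
  have h46 : g < 46 := by
    by_contra hc
    have h2 := (let_all hx).2.1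
    have : leb g (blf (ccf x)) = false :=
      tb_big (n := 1472) (by decide +kernel) (by
        show 1472 ≤ 32 * g + blf (ccf x)
        omega)
    rw [this] at hg
    exact Bool.noConfusion hg
  have h := lal_all (f := fun x => (List.range 46).all fun g =>
    !leb g (blf (ccf x)) || lle g x) (by decide +kernel) hx
  rw [List.all_eq_true] at h
  have h1 := h g (List.mem_range.2 h46)
  rw [hg] at h1
  simpa using h1

theorem lev_all {g v : Nat} (hg : lev g v = true) : ∀ x ∈ lg v, lle g x = true := by
  intro x hx
  have hv := lg_lt hx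
  have h46 : g < 46 := by
    by_contra hc
    have : lev g v = false :=
      tb_big (n := 2944) (by decide +kernel) (by
        show 2944 ≤ 64 * g + v
        omega)
    rw [this] at hg
    exact Bool.noConfusion hg
  have h : ((List.range 46).all fun g => (List.range 46).all fun v =>
    !lev g v || (lg v).all fun x => lle g x) = true := by decide +kernel
  rw [List.all_eq_true] at h
  have h1 := h g (List.mem_range.2 h46)
  rw [List.all_eq_true] at h1
  have h2 := h1 v (List.mem_range.2 hv)
  rw [hg, Bool.not_true, Bool.false_or, List.all_eq_true] at h2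
  exact h2 x hx

theorem lg_all {v x : Nat} (hx : x ∈ lg v) : x ∈ lg x ∧ lal x = true := by
  have h : ((List.range 46).all fun v => (lg v).all fun x => (lg x).elem x && lal x) = true := by
    decide +kernel
  rw [List.all_eq_true] at h
  have h1 := h v (List.mem_range.2 (lg_lt hx))
  rw [List.all_eq_true] at h1
  have h2 := h1 x hx
  rw [Bool.and_eq_true] at h2
  exact ⟨List.elem_iff.1 h2.1, h2.2⟩

/-- the pairs of letters, for the kernel -/
def r2b (k l m x : Nat) : Bool :=
  Nat.beq (Nat.land (Nat.shiftRight r2T
    (Nat.add l (Nat.add (Nat.mul 32 x) (Nat.mul 1024 (Nat.add k (Nat.mul 4 m)))))) 1) 1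

/-- two letters at the ends of an edge, `l` first letter -/
def p2 (k l m x : Nat) : Bool :=
  cmpf l x && okl l k && okl x m && g2 (6 - k) l (6 - m) x

theorem r2_all {k l m x : Nat} (hk : k < 3) (hm : m < 3) (h : p2 k l m x = true) :
    r2b k (blx l + 1) m (blx x + 1) = true := by
  have h0 : ((List.range 27).all fun l => (List.range 27).all fun x => !cmpf l x ||
    ((List.range 3).all fun k => (List.range 3).all fun m => !p2 k l m x ||
      r2b k (blx l + 1) m (blx x + 1))) = true := by decide +kernel
  have h' := h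
  unfold p2 at h'
  simp only [Bool.and_eq_true] at h'
  have hc := h'.1.1.1
  have hc' := hc
  unfold cmpf at hc'
  simp only [Bool.and_eq_true] at hc'
  rw [List.all_eq_true] at h0
  have h1 := h0 l (List.mem_range.2 (lal_lt hc'.1.1))
  rw [List.all_eq_true] at h1
  have h2 := h1 x (List.mem_range.2 (lal_lt hc'.1.2))
  rw [hc, Bool.not_true, Bool.false_or, List.all_eq_true] at h2
  have h3 := h2 k (List.mem_range.2 hk)
  rw [List.all_eq_true] at h3
  have h4 := h3 m (List.mem_range.2 hm)
  rw [h, Bool.not_true, Bool.false_or] at h4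
  exact h4

theorem ua_all {k l m x v : Nat} (hk : k < 3) (hm : m < 3) (h : p2 k l m x = true)
    (hv : l ∈ lg v) : ua k v m (blx x + 1) = true := by
  have h0 : ((List.range 46).all fun v => (lg v).all fun l => (List.range 27).all fun x =>
    !cmpf l x || ((List.range 3).all fun k => (List.range 3).all fun m => !p2 k l m x ||
      ua k v m (blx x + 1))) = true := by decide +kernel
  have h' := h
  unfold p2 at h'
  simp only [Bool.and_eq_true] at h'
  have hc := h'.1.1.1
  have hc' := hc
  unfold cmpf at hc'
  simp only [Bool.and_eq_true] at hc'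
  rw [List.all_eq_true] at h0
  have h0 := h0 v (List.mem_range.2 (lg_lt hv))
  rw [List.all_eq_true] at h0
  have h1 := h0 l hv
  rw [List.all_eq_true] at h1
  have h2 := h1 x (List.mem_range.2 (lal_lt hc'.1.2))
  rw [hc, Bool.not_true, Bool.false_or, List.all_eq_true] at h2
  have h3 := h2 k (List.mem_range.2 hk)
  rw [List.all_eq_true] at h3
  have h4 := h3 m (List.mem_range.2 hm)
  rw [h, Bool.not_true, Bool.false_or] at h4
  exact h4

theorem ub_all {k l m x v : Nat} (hk : k < 3) (hm : m < 3) (h : p2 m x k l = true)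
    (hv : l ∈ lg v) : ub k v m (blx x + 1) = true := by
  have h0 : ((List.range 46).all fun v => (lg v).all fun l => (List.range 27).all fun x =>
    !cmpf x l || ((List.range 3).all fun k => (List.range 3).all fun m => !p2 m x k l ||
      ub k v m (blx x + 1))) = true := by decide +kernel
  have h' := h
  unfold p2 at h'
  simp only [Bool.and_eq_true] at h'
  have hc := h'.1.1.1
  have hc' := hc
  unfold cmpf at hc'
  simp only [Bool.and_eq_true] at hc'
  rw [List.all_eq_true] at h0
  have h0 := h0 v (List.mem_range.2 (lg_lt hv))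
  rw [List.all_eq_true] at h0
  have h1 := h0 l hv
  rw [List.all_eq_true] at h1
  have h2 := h1 x (List.mem_range.2 (lal_lt hc'.1.1))
  rw [hc, Bool.not_true, Bool.false_or, List.all_eq_true] at h2
  have h3 := h2 k (List.mem_range.2 hk)
  rw [List.all_eq_true] at h3
  have h4 := h3 m (List.mem_range.2 hm)
  rw [h, Bool.not_true, Bool.false_or] at h4
  exact h4

/-- conflicts at a sector: digits -/
def gkb (k X m a n b : Nat) : Bool :=
  tb (gks k X) (Nat.add b (Nat.add (Nat.mul 1024 n) (Nat.add (Nat.mul 32 a) (Nat.mul 4096 m))))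

theorem gk_all {k l m n x y : Nat} (hk : k < 3) (hm : m < 3) (hn : n < 3)
    (h1 : p2 k l m x = true) (h2 : p2 n y k l = true) (h3 : g4 (6 - k) l (6 - m) (6 - n) x y = true) :
    gkb k (ccf l + 1) m (blx x + 1) n (blx y + 1) = false := by
  have h0 : ((List.range 27).all fun l => (List.range 27).all fun x => !cmpf l x ||
    ((List.range 27).all fun y => !cmpf y l ||
    ((List.range 3).all fun k => (List.range 3).all fun m => !p2 k l m x ||
      ((List.range 3).all fun n => !p2 n y k l || !g4 (6 - k) l (6 - m) (6 - n) x y ||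
        !gkb k (ccf l + 1) m (blx x + 1) n (blx y + 1))))) = true := by decide +kernel
  have e1 := h1
  have e2 := h2
  unfold p2 at e1 e2
  simp only [Bool.and_eq_true] at e1 e2
  have c1 := e1.1.1.1
  have c2 := e2.1.1.1
  have c1' := c1
  have c2' := c2
  unfold cmpf at c1' c2'
  simp only [Bool.and_eq_true] at c1' c2'
  rw [List.all_eq_true] at h0
  have h0 := h0 l (List.mem_range.2 (lal_lt c1'.1.1))
  rw [List.all_eq_true] at h0
  have h0 := h0 x (List.mem_range.2 (lal_lt c1'.1.2))
  rw [c1, Bool.not_true, Bool.false_or, List.all_eq_true] at h0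
  have h0 := h0 y (List.mem_range.2 (lal_lt c2'.1.1))
  rw [c2, Bool.not_true, Bool.false_or, List.all_eq_true] at h0
  have h0 := h0 k (List.mem_range.2 hk)
  rw [List.all_eq_true] at h0
  have h0 := h0 m (List.mem_range.2 hm)
  rw [h1, Bool.not_true, Bool.false_or, List.all_eq_true] at h0
  have h0 := h0 n (List.mem_range.2 hn)
  rw [h2, h3] at h0
  simpa using h0

end

end Pool.FCK
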