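import Pool.Agent.FCK.Io

/-! # Star check: all words -/

set_option maxRecDepth 1000000

namespace Pool.FCK

open Pool.FCS Pool.FC7

noncomputable section

/-- the test at the end of a word -/
def lfB (p : Nat → Bool) (rem acc k : Nat) (pf ff fu : Bool) : Bool :=
  bif Nat.ble 4 k then
    bif (bif pf then ff else (bif ff then false else true)) then
      bif (bif fu then Nat.ble 1 rem else false) then true else p acc
    else true
  else true

/-- all words: `rem` remaining weight, `acc` code, `pwr` power of `32`, `k` number of letters, `pf`
label after the last letter, `ff` label before the first letter, `fu` full weight is necessary -/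
def en2 (wt : Nat → Nat) (nx fv : Nat → Bool) (al0 al1 : List Nat) (p : Nat → Bool) (n : Nat) :
    Nat → Nat → Nat → Nat → Bool → Bool → Bool → Bool :=
  Nat.rec (motive := fun _ => Nat → Nat → Nat → Nat → Bool → Bool → Bool → Bool)
    (fun rem acc _ k pf ff fu => lfB p rem acc k pf ff fu)
    (fun _ ih rem acc pwr k pf ff fu =>
      bif lfB p rem acc k pf ff fu then
        List.rec (motive := fun _ => Bool) true
          (fun x _ jh => bif Nat.ble (wt x) rem then
            bif ih (Nat.sub rem (wt x)) (Nat.add acc (Nat.mul (Nat.succ x) pwr)) (Nat.mul pwr 32)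
              (Nat.succ k) (nx x) ff (bif fu then true else fv x) then jh else false
            else jh) (bif pf then al1 else al0)
      else false) n

/-- the labels fit -/
def chn (nx pv : Nat → Bool) (ff : Bool) : Bool → List Nat → Prop
  | pf, [] => pf = ff
  | pf, x :: w => pv x = pf ∧ chn nx pv ff (nx x) w

theorem lfB_p {p : Nat → Bool} {rem acc k : Nat} {pf ff fu : Bool}
    (h : lfB p rem acc k pf ff fu = true) (hk : 4 ≤ k) (hf : pf = ff) (hu : fu = true → rem = 0) :
    p acc = true := by
  unfold lfB at h
  rw [Nat.ble_eq_true_of_le hk] at h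
  have e1 : (bif pf then ff else (bif ff then false else true)) = true := by
    subst hf; cases pf <;> rfl
  have e2 : (bif fu then Nat.ble 1 rem else false) = false := by
    cases hh : fu with
    | true => rw [hu hh]; rfl
    | false => rfl
  rw [e1, e2] at h
  exact h

theorem en2_sound {wt : Nat → Nat} {nx pv fv : Nat → Bool} {al0 al1 : List Nat}
    {p : Nat → Bool} : ∀ (n : Nat) (w : List Nat) (rem acc pwr k : Nat) (pf ff fu : Bool),
    w.length ≤ n → (w.map wt).sum ≤ rem →
    (∀ x ∈ w, x ∈ (bif pv x then al1 else al0)) → chn nx pv ff pf w →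
    ((fu = true ∨ ∃ x ∈ w, fv x = true) → (w.map wt).sum = rem) → 4 ≤ k + w.length →
    en2 wt nx fv al0 al1 p n rem acc pwr k pf ff fu = true → p (acc + pwr * enc w) = true
  | 0, w, rem, acc, pwr, k, pf, ff, fu, hl, hs, ha, hc, hu, h4, h => by
    have hw : w = [] := List.eq_nil_of_length_eq_zero (by omega)
    subst hw
    have h' : lfB p rem acc k pf ff fu = true := h
    have := lfB_p h' (by simpa using h4) hc (fun hf => by simpa using (hu (Or.inl hf)).symm)
    simpa using this
  | n + 1, w, rem, acc, pwr, k, pf, ff, fu, hl, hs, ha, hc, hu, h4, h => by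
    have h' : (bif lfB p rem acc k pf ff fu then
        List.rec (motive := fun _ => Bool) true
          (fun x _ jh => bif Nat.ble (wt x) rem then
            bif en2 wt nx fv al0 al1 p n (Nat.sub rem (wt x)) (Nat.add acc (Nat.mul (Nat.succ x) pwr))
              (Nat.mul pwr 32) (Nat.succ k) (nx x) ff (bif fu then true else fv x) then jh
              else false
            else jh) (bif pf then al1 else al0)
      else false) = true := h
    rw [cond_true_iff] at h'
    obtain ⟨h1, h2⟩ := h'
    cases w with
    | nil =>
      have := lfB_p h1 (by simpa using h4) hc (fun hf => by simpa using (hu (Or.inl hf)).symm)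
      simpa using this
    | cons y w =>
      have hy := ha y (List.mem_cons_self ..)
      obtain ⟨c1, c2⟩ := hc
      rw [c1] at hy
      rw [List.map_cons, List.sum_cons] at hs hu
      have key : ∀ l : List Nat, y ∈ l → List.rec (motive := fun _ => Bool) true
          (fun x _ jh => bif Nat.ble (wt x) rem then
            bif en2 wt nx fv al0 al1 p n (Nat.sub rem (wt x)) (Nat.add acc (Nat.mul (Nat.succ x) pwr))
              (Nat.mul pwr 32) (Nat.succ k) (nx x) ff (bif fu then true else fv x) then jh
              else false
            else jh) l = true →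
          en2 wt nx fv al0 al1 p n (rem - wt y) (acc + (y + 1) * pwr) (pwr * 32) (k + 1) (nx y) ff
            (bif fu then true else fv y) = true := by
        intro l
        induction l with
        | nil => intro h; simp at h
        | cons x l jh =>
          intro hm hh
          dsimp only at hh
          rcases List.mem_cons.1 hm with hm | hm
          · subst hm
            rw [Nat.ble_eq_true_of_le (by omega : wt y ≤ rem)] at hh
            dsimp only [cond_true] at hh
            rw [cond_true_iff] at hh
            exact hh.1
          · apply jh hm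
            revert hh
            cases Nat.ble (wt x) rem with
            | false => intro hh; exact hh
            | true =>
              intro hh
              dsimp only [cond_true] at hh
              rw [cond_true_iff] at hh
              exact hh.2
      have h3 := key _ hy h2
      have h6 := en2_sound n w _ _ _ _ _ _ _ (by simpa using hl) (by omega)
        (fun x hx => ha x (List.mem_cons_of_mem _ hx)) c2 (fun hf => by
          have : y ∈ y :: w := List.mem_cons_self ..
          have h7 : wt y + (w.map wt).sum = rem := by
            apply hu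
            rcases hf with hf | ⟨x, hx, hf⟩
            · cases hfu : fu with
              | true => exact Or.inl rfl
              | false =>
                rw [hfu] at hf
                exact Or.inr ⟨y, List.mem_cons_self .., hf⟩
            · exact Or.inr ⟨x, List.mem_cons_of_mem _ hx, hf⟩
          omega) (by
          rw [List.length_cons] at h4; omega) h3
      rw [enc_cons]
      have e : acc + pwr * (y + 1 + 32 * enc w) = acc + (y + 1) * pwr + pwr * 32 * enc w := by ring
      rw [e]
      exact h6

/-- weight -/
def wk (x : Nat) : Nat := tdg wmT (Nat.succ x)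

/-- labels after the letter, before the letter, letters of full vertices -/
def nxk (x : Nat) : Bool := tb 8388688 x

/-- letters of full vertices -/
def fuk (x : Nat) : Bool := tb 125830896 x

/-- letters without a label before -/
def al0 : List Nat := [0, 2, 11, 4, 1, 18, 3, 19, 17, 22, 6, 23, 9, 25, 10, 26]

/-- letters with a label before -/
def al1 : List Nat := [5, 7, 24]

/-- the words with the first letter `x` -/
def chk1 (p : Nat → Bool) (x : Nat) : Bool :=
  en2 wk nxk fuk al0 al1 p 5 (Nat.sub 6 (wk x)) (Nat.succ x) 32 1 (nxk x) (tb 16777376 x) (fuk x)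

/-- the words of the centres -/
def glY (w : List Nat) : Bool := glw w && w.all fun y => decide (ccf y = y)

theorem cc_let {y : Nat} (h : lal y = true) (hc : ccf y = y) : wk y = wl y ∧ nxk y = lnx y ∧
    fuk y = lfu y ∧ tb 16777376 y = lpv y ∧ y ∈ (bif lpv y then al1 else al0) := by
  have h0 := lal_all (f := fun y => !decide (ccf y = y) || (decide (wk y = wl y) &&
    (nxk y == lnx y) && (fuk y == lfu y) && (tb 16777376 y == lpv y) &&
    (bif lpv y then al1 else al0).elem y)) (by decide +kernel) h
  rw [hc] at h0
  simp only [decide_true, Bool.not_true, Bool.false_or, Bool.and_eq_true, decide_eq_true_eq,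
    beq_iff_eq] at h0
  obtain ⟨⟨⟨⟨h1, h2⟩, h3⟩, h4⟩, h5⟩ := h0
  exact ⟨h1, h2, h3, h4, List.elem_iff.1 h5⟩

theorem chn_of {nx pv : Nat → Bool} {ff : Bool} : ∀ (w : List Nat) (pf : Bool),
    (∀ h : 0 < w.length, pv (w.getD 0 0) = pf) →
    (∀ i, i + 1 < w.length → nx (w.getD i 0) = pv (w.getD (i + 1) 0)) →
    (w = [] → pf = ff) → (w ≠ [] → nx (w.getD (w.length - 1) 0) = ff) → chn nx pv ff pf w
  | [], pf, _, _, h, _ => h rfl
  | x :: w, pf, h0, h1, _, h2 => by
    refine ⟨h0 (by simp), chn_of w (nx x) (fun h => ?_) (fun i hi => ?_) (fun h => ?_)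
      fun h => ?_⟩
    · have := h1 0 (by simpa using h)
      simpa using this.symm
    · have := h1 (i + 1) (by simpa using hi)
      simpa using this
    · subst h
      simpa using h2 (by simp)
    · have h3 := h2 (by simp)
      have h4 : 0 < w.length := List.length_pos_iff.2 h
      rw [List.length_cons, show w.length + 1 - 1 = (w.length - 1) + 1 by omega,
        List.getD_cons_succ] at h3
      exact h3

/-- all words of the centres -/
theorem glY_all {p : Nat → Bool} (h0 : ∀ x ∈ al0, chk1 p x = true)
    (h1 : ∀ x ∈ al1, chk1 p x = true) (w : List Nat) (hw : glY w = true) :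
    p (enc w) = true := by
  unfold glY at hw
  rw [Bool.and_eq_true] at hw
  obtain ⟨hg, hc⟩ := hw
  have hl := glw_len hg
  have ha := glw_lal hg
  rw [List.all_eq_true] at hc
  have hlet := fun y hy => cc_let (ha y hy) (by simpa using hc y hy)
  unfold glw at hg
  simp only [Bool.and_eq_true, decide_eq_true_eq, Bool.or_eq_true] at hg
  obtain ⟨⟨⟨⟨g1, g2⟩, g3⟩, g4⟩, g5⟩ := hg
  rw [List.all_eq_true] at g4
  have adj : ∀ i < w.length, nxk (w.getD i 0) = tb 16777376 (w.getD ((i + 1) % w.length) 0) := by
    intro i hi
    have := g4 i (List.mem_range.2 hi)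
    rw [(hlet _ (getD_mem hi)).2.1, (hlet _ (getD_mem (Nat.mod_lt _ (by omega)))).2.2.2.1]
    simpa using this
  cases w with
  | nil => simp at g1
  | cons x w =>
    have hx := hlet x (List.mem_cons_self ..)
    have hxa : chk1 p x = true := by
      have h2 := hx.2.2.2.2
      cases h3 : lpv x with
      | true => rw [h3] at h2; exact h1 x h2
      | false => rw [h3] at h2; exact h0 x h2
    have hsum : ((x :: w).map wk).sum = ((x :: w).map wl).sum := by
      congr 1
      exact List.map_congr_left fun y hy => (hlet y hy).1
    rw [List.map_cons, List.sum_cons] at hsum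
    rw [List.length_cons] at hl adj
    have hch : chn nxk (fun y => tb 16777376 y) (tb 16777376 x) (nxk x) w := by
      have h4 : w ≠ [] := by rintro rfl; simp at g1
      have h5 : 0 < w.length := List.length_pos_iff.2 h4
      refine chn_of w _ (fun _ => ?_) (fun i hi => ?_) (fun h => absurd h h4) fun _ => ?_
      · have := adj 0 (by omega)
        rw [Nat.mod_eq_of_lt (by omega)] at this
        simpa using this.symm
      · have := adj (i + 1) (by omega)
        rw [Nat.mod_eq_of_lt (by omega)] at this
        simpa using this
      · have := adj w.length (by omega)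
        rw [Nat.mod_self] at this
        rw [show w.length = (w.length - 1) + 1 by omega, List.getD_cons_succ] at this
        simpa using this
    have := en2_sound 5 w (6 - wk x) (x + 1) 32 1 (nxk x) (tb 16777376 x) (fuk x) (by omega)
      (by omega) (fun y hy => by
        have h2 := hlet y (List.mem_cons_of_mem _ hy)
        show y ∈ (bif tb 16777376 y then al1 else al0)
        rw [h2.2.2.2.1]
        exact h2.2.2.2.2) hch (fun hf => by
        have h6 : (((x :: w).map wl).sum) = 6 := by
          rcases g5 with g5 | g5
          · exact g5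
          · exfalso
            rw [List.all_eq_true] at g5
            rcases hf with hf | ⟨y, hy, hf⟩
            · rw [hx.2.2.1] at hf
              have := g5 x (List.mem_cons_self ..)
              rw [hf] at this
              exact Bool.noConfusion this
            · rw [(hlet y (List.mem_cons_of_mem _ hy)).2.2.1] at hf
              have := g5 y (List.mem_cons_of_mem _ hy)
              rw [hf] at this
              exact Bool.noConfusion this
        omega) (by omega) hxa
    rw [enc_cons]
    exact this

theorem glY_cc {c : List Nat} (h : glf c = true) : glY (c.map ccf) = true := by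
  have h' := h
  unfold glf at h'
  rw [Bool.and_eq_true, Bool.and_eq_true] at h'
  have hg := h'.1.1
  have ha := glw_lal hg
  have hcc : ∀ x ∈ c, wl (ccf x) = wl x ∧ lal (ccf x) = true ∧ lnx (ccf x) = lnx x ∧
      lpv (ccf x) = lpv x ∧ (lfu (ccf x) = true → lfu x = true) ∧ ccf (ccf x) = ccf x := by
    intro x hx
    have h0 := lal_all (f := fun x => decide (wl (ccf x) = wl x) && lal (ccf x) &&
      (lnx (ccf x) == lnx x) && (lpv (ccf x) == lpv x) && (!lfu (ccf x) || lfu x) &&
      decide (ccf (ccf x) = ccf x)) (by decide +kernel) (ha x hx)
    simp only [Bool.and_eq_true, decide_eq_true_eq, beq_iff_eq, Bool.or_eq_true,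
      Bool.not_eq_true'] at h0
    obtain ⟨⟨⟨⟨⟨a1, a2⟩, a3⟩, a4⟩, a5⟩, a6⟩ := h0
    exact ⟨a1, a2, a3, a4, fun h => by
      rcases a5 with a5 | a5
      · rw [a5] at h; exact Bool.noConfusion h
      · exact a5, a6⟩
  unfold glw at hg
  simp only [Bool.and_eq_true, decide_eq_true_eq, Bool.or_eq_true] at hg
  obtain ⟨⟨⟨⟨g1, g2⟩, g3⟩, g4⟩, g5⟩ := hg
  have hsum : ((c.map ccf).map wl).sum = (c.map wl).sum := by
    rw [List.map_map]
    congr 1
    exact List.map_congr_left fun x hx => (hcc x hx).1
  unfold glY glw
  simp only [Bool.and_eq_true, decide_eq_true_eq, Bool.or_eq_true]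
  rw [hsum, List.length_map]
  refine ⟨⟨⟨⟨⟨g1, g2⟩, ?_⟩, ?_⟩, ?_⟩, ?_⟩
  · rw [List.all_eq_true]
    intro y hy
    obtain ⟨x, hx, rfl⟩ := List.mem_map.1 hy
    exact (hcc x hx).2.1
  · rw [List.all_eq_true] at g4 ⊢
    intro i hi
    have hi' := List.mem_range.1 hi
    have hj : (i + 1) % c.length < c.length := Nat.mod_lt _ (by omega)
    have := g4 i hi
    rw [getD_map0 hi', getD_map0 hj, (hcc _ (getD_mem hi')).2.2.1, (hcc _ (getD_mem hj)).2.2.2.1]
    exact this
  · rcases g5 with g5 | g5
    · exact Or.inl g5
    · right
      rw [List.all_eq_true] at g5 ⊢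
      intro y hy
      obtain ⟨x, hx, rfl⟩ := List.mem_map.1 hy
      have := g5 x hx
      cases hl : lfu (ccf x) with
      | false => rfl
      | true =>
        rw [(hcc x hx).2.2.2.2.1 hl] at this
        exact Bool.noConfusion this
  · rw [List.all_eq_true]
    intro y hy
    obtain ⟨x, hx, rfl⟩ := List.mem_map.1 hy
    rw [decide_eq_true_eq]
    exact (hcc x hx).2.2.2.2.2

end

end Pool.FCK
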