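import Pool.Agent.FCK.Ip
import Pool.Agent.FC7.StE

/-! # Star check: the star inequality for the concrete tables -/

set_option maxRecDepth 1000000

namespace Pool.FCK

open Pool.FCS Pool.FC7

noncomputable section

variable {D : Type} {Y : FCS.Sys D} {e r : D}

theorem getD_last {l : List Nat} (h : l ≠ []) : l.getD (l.length - 1) 0 ∈ l := by
  have : 0 < l.length := List.length_pos_iff.2 h
  exact getD_mem (by omega)

section star

variable (hY : Y.Ok cmpf lsol) (hg : ∀ e, Y.W e ≠ [] → glf (Y.W e) = true)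
  (h2 : ∀ e, Y.W e ≠ [] → Y.W (Y.al e) ≠ [] → G2 Y e)

include hY hg h2

theorem p2_at (hr : Y.W r ≠ []) (ha : Y.W (Y.al r) ≠ []) :
    p2 (6 - ((Y.W r).map wl).sum) ((Y.W r).getD 0 0) (6 - ((Y.W (Y.al r)).map wl).sum)
      ((Y.W (Y.al r)).getD ((Y.W (Y.al r)).length - 1) 0) = true := by
  obtain ⟨l4, -, s6, -, -, k1⟩ := glf_w (hg r hr)
  obtain ⟨m4, -, t6, -, -, k2⟩ := glf_w (hg _ ha)
  have hg2 := h2 r hr ha
  unfold G2 at hg2
  unfold p2
  rw [hY.cmp r hr ha, k1 _ (getD_mem (by omega)), k2 _ (getD_last ha),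
    show 6 - (6 - ((Y.W r).map wl).sum) = ((Y.W r).map wl).sum by omega,
    show 6 - (6 - ((Y.W (Y.al r)).map wl).sum) = ((Y.W (Y.al r)).map wl).sum by omega, hg2]
  rfl

end star

theorem star_of {facts : List FCS.Fct} {den sh nu nl w dl h4 h5 : Nat}
    {T SG : BT (List (Nat × Nat))} {PF PD WL : BT (List Nat)} {cd : Nat → Nat → Nat}
    {FB : BT (List FCS.Fct)} {CB : BT (List CE)}
    (hF : ∀ p ∈ FB.toList, ∀ X ∈ p.2, X ∈ facts)
    (hcd : ∀ a i, cd a i = cda ((mkQ den sh nu nl T SG PF).pos a 0).cl i)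
    (hsh : 12 * den ≤ 4 * (sh + 2 * den))
    (hPF : PF.allB (fun x ys => pfdb leb lmr FB x ys (PD.get x)) = true)
    (hCB : CB.allB ((mkP (mkQ den sh nu nl T SG PF) w cd dl h4 h5).ckc lmr FB) = true)
    (hSG : SG.allB ((mkP (mkQ den sh nu nl T SG PF) w cd dl h4 h5).soc WL) = true)
    (hc0 : ∀ x ∈ al0, chk1 ((mkP (mkQ den sh nu nl T SG PF) w cd dl h4 h5).cow CB WL) x = true)
    (hc1 : ∀ x ∈ al1, chk1 ((mkP (mkQ den sh nu nl T SG PF) w cd dl h4 h5).cow CB WL) x = true) :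
    StarOk2 facts den nl nu dl (hgf h4 h5)
      (fun a b => (mkQ den sh nu nl T SG PF).fw (a.map ccf) (b.map ccf)) := by
  intro D Y hY hg hX hN hG2 hG4 e he
  have hal : ∀ e, ∀ x ∈ Y.W e, lal x = true := by
    intro e x hx
    have h0 : Y.W e ≠ [] := by
      intro h; rw [h] at hx; simp at hx
    exact (glf_w (hg e h0)).2.2.2.2.1 x hx
  have hks : ∀ e, Y.W e ≠ [] → wsl wmT ((Y.mp ccf).c e) = 6 - ((Y.W e).map wl).sum :=
    fun e he => wsl_w (hg e he)
  have hk3 : ∀ e, Y.W e ≠ [] → 6 - ((Y.W e).map wl).sum < 3 := fun e he =>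
    (glf_w (hg e he)).2.2.2.1
  have hP2 := fun r hr ha => p2_at (r := r) hY hg hG2 hr ha
  have hne : ∀ e, Y.W (Y.al e) ≠ [] → Y.W (Y.al (Y.al e)) = Y.W e := fun e _ => by
    rw [hY.alal]
  refine star_allc (P := mkP (mkQ den sh nu nl T SG PF) w cd dl h4 h5) (f := blf) (cc := ccf)
    (lng := lng) (cmpS := cmpf) (le := lle) (ml := lmr) (FB := FB) (PD := PD) (CB := CB)
    (WL := WL) (glY := glY) hY (fun p hp X hx => by
      rw [lmr_eq]; exact hX X (hF p hp X hx)) hN (fun e he => glY_cc (hg e he)) ?_ ?_ ?_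
    (fun g v h x hx => lev_all h x hx) (fun v x hx => (lg_all hx).1) ?_ ?_ ?_ ?_
    (fun r _ _ _ v _ => rfl) hcd hsh (fun e x hx => ?_) hPF hCB hSG ?_ e he
  · -- compatible letters
    intro x y h
    have h0 := cmpf_all (f := fun x y => cme (ccf x + 1) (ccf y + 1) &&
      cmb (blf (ccf x) + 1) (blf (ccf y) + 1)) (by decide +kernel) h
    rw [Bool.and_eq_true] at h0
    exact h0
  · -- letters
    intro e x hx
    have hl := hal e x hx
    obtain ⟨a1, a2, a3, a4, a5, a6, a7, a8, a9⟩ := let_all hl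
    exact ⟨a1, a2, a3, a4, a5, a6, a7, a8, fun g hgg => leb_all hl hgg⟩
  · -- impossible letters
    intro e i hi p n hp hn
    have h0 : Y.W e ≠ [] := by
      intro h; rw [h] at hi; simp at hi
    show imp (wsl wmT ((Y.mp ccf).c e)) _ p n = false
    rw [hks e h0]
    exact imp_ok (hg e h0) hi hp hn
  · -- pairs of letters
    intro r hr ha
    show r2b (wsl wmT ((Y.mp ccf).c r)) _ (wsl wmT ((Y.mp ccf).c (Y.al r))) _ = true
    rw [hks r hr, hks _ ha]
    exact r2_all (hk3 r hr) (hk3 _ ha) (hP2 r hr ha)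
  · intro r hr ha v hv
    show ua (wsl wmT ((Y.mp ccf).c r)) v (wsl wmT ((Y.mp ccf).c (Y.al r))) _ = true
    rw [hks r hr, hks _ ha]
    exact ua_all (hk3 r hr) (hk3 _ ha) (hP2 r hr ha) hv
  · intro r hr ha v hv
    show ub (wsl wmT ((Y.mp ccf).c r)) v (wsl wmT ((Y.mp ccf).c (Y.al r))) _ = true
    rw [hks r hr, hks _ ha]
    have h1 := hP2 (Y.al r) ha (by rw [hY.alal]; exact hr)
    rw [hY.alal] at h1
    exact ub_all (hk3 r hr) (hk3 _ ha) h1 hv
  · -- three vertices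
    intro r hr ha hb
    show gk (wsl wmT ((Y.mp ccf).c r)) (ccf ((Y.W r).getD 0 0) + 1)
      (nfc bmT wmT smT (enc ((Y.W (Y.al r)).map ccf)))
      (nfc bmT wmT smT (enc ((Y.W (Y.al (Y.nx r))).map ccf))) = false
    rw [hks r hr, gk_w (hg _ ha) (hg _ hb)]
    have hrn : Y.W (Y.nx r) ≠ [] := hY.ne_nx hr
    have h1 := hP2 r hr ha
    have h2 := hP2 (Y.al (Y.nx r)) hb (by rw [hY.alal]; exact hrn)
    rw [hY.alal] at h2
    have hrot := hY.rot r hr
    have hlen := (hY.len r hr).1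
    have e1 : (Y.W (Y.nx r)).getD ((Y.W (Y.nx r)).length - 1) 0 = (Y.W r).getD 0 0 := by
      rw [hrot, List.length_rotate,
        List.getD_eq_getElem _ _ (by rw [List.length_rotate]; omega), List.getElem_rotate,
        List.getD_eq_getElem _ _ (by omega)]
      congr 1
      rw [show (Y.W r).length - 1 + 1 = (Y.W r).length by omega, Nat.mod_self]
    have e2 : ((Y.W (Y.nx r)).map wl).sum = ((Y.W r).map wl).sum := by
      rw [hrot]
      exact ((List.rotate_perm _ 1).map _).sum_eq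
    rw [e1, e2] at h2
    obtain ⟨-, -, s6, -, -, -⟩ := glf_w (hg r hr)
    obtain ⟨-, -, t6, -, -, -⟩ := glf_w (hg _ ha)
    obtain ⟨-, -, u6, -, -, -⟩ := glf_w (hg _ hb)
    refine gk_all (hk3 r hr) (hk3 _ ha) (hk3 _ hb) h1 h2 ?_
    have h3 := hG4 r hr ha hb
    unfold G4 at h3
    rw [show 6 - (6 - ((Y.W r).map wl).sum) = ((Y.W r).map wl).sum by omega,
      show 6 - (6 - ((Y.W (Y.al r)).map wl).sum) = ((Y.W (Y.al r)).map wl).sum by omega,
      show 6 - (6 - ((Y.W (Y.al (Y.nx r))).map wl).sum) =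
        ((Y.W (Y.al (Y.nx r))).map wl).sum by omega]
    exact h3
  · -- prices of the letters
    obtain ⟨-, -, -, a4, a5, -⟩ := let_all (hal e x hx)
    show hdf h4 h5 (ccf x + 1) = hgf h4 h5 x
    unfold hdf hgf
    rw [a4, a5]
    cases lsol x
    · cases lng x <;> rfl
    · rfl
  · -- all words
    exact glY_all hc0 hc1

end

end Pool.FCK
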