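import Pool.Agent.FCK.Ip

/-! # Star check: all words, split at the second letter -/

set_option maxRecDepth 1000000

namespace Pool.FCK

open Pool.FCS Pool.FC7

noncomputable section

/-- the words with the first letters `x`, `y` -/
def chk2 (p : Nat → Bool) (x y : Nat) : Bool :=
  bif Nat.ble (wk y) (Nat.sub 6 (wk x)) then
    en2 wk nxk fuk al0 al1 p 4 (Nat.sub (Nat.sub 6 (wk x)) (wk y))
      (Nat.add (Nat.succ x) (Nat.mul (Nat.succ y) 32)) 1024 2 (nxk y) (tb 16777376 x)
      (bif fuk x then true else fuk y)
  else true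

theorem chk1_of {p : Nat → Bool} {x : Nat} {l : List Nat} (hl : (bif nxk x then al1 else al0) = l)
    (h : ∀ y ∈ l, chk2 p x y = true) : chk1 p x = true := by
  have h1 : chk1 p x = List.rec (motive := fun _ => Bool) true
      (fun y _ jh => bif Nat.ble (wk y) (Nat.sub 6 (wk x)) then
        bif en2 wk nxk fuk al0 al1 p 4 (Nat.sub (Nat.sub 6 (wk x)) (wk y))
          (Nat.add (Nat.succ x) (Nat.mul (Nat.succ y) 32)) (Nat.mul 32 32)
          (Nat.succ 1) (nxk y) (tb 16777376 x) (bif fuk x then true else fuk y) then jh else false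
        else jh) (bif nxk x then al1 else al0) := rfl
  rw [h1, hl]
  clear h1 hl
  induction l with
  | nil => rfl
  | cons y l ih =>
    have hy := h y (List.mem_cons_self ..)
    have hl := ih fun z hz => h z (List.mem_cons_of_mem _ hz)
    unfold chk2 at hy
    dsimp only
    revert hy
    cases Nat.ble (wk y) (Nat.sub 6 (wk x)) with
    | false => intro _; exact hl
    | true =>
      intro hy
      have hy' : en2 wk nxk fuk al0 al1 p 4 (Nat.sub (Nat.sub 6 (wk x)) (wk y))
        (Nat.add (Nat.succ x) (Nat.mul (Nat.succ y) 32)) (Nat.mul 32 32)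
        (Nat.succ 1) (nxk y) (tb 16777376 x) (bif fuk x then true else fuk y) = true := hy
      rw [hy']
      exact hl

end

end Pool.FCK
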