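import Pool.Agent.FCK.Ip
import Pool.Agent.FCK.Jp
import Pool.Agent.FCS.Wi
import Pool.Agent.FC7.StF

/-! # Star check, second version: the star inequality for the concrete tables -/

set_option maxRecDepth 1000000

namespace Pool.FCK

open Pool.FCS Pool.FC7

noncomputable section

/-- the masks of the view letters -/
theorem lvj_ok (v g : Nat) (h : Nat.testBit (lvj v) g = true) : g < 64 ∧ lev g v = true := by
  have e : lvj v = (lvT >>> (64 * v)) % 2 ^ 64 := rfl
  rw [e, Nat.testBit_mod_two_pow, Bool.and_eq_true, decide_eq_true_eq,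
    Nat.testBit_shiftRight] at h
  obtain ⟨hg, h⟩ := h
  refine ⟨hg, ?_⟩
  have hv : v < 46 := by
    by_contra hc
    have : Nat.testBit lvT (64 * v + g) = false :=
      Nat.testBit_lt_two_pow (lt_of_lt_of_le (b := 2 ^ 2944) (by decide +kernel)
        (Nat.pow_le_pow_right (by norm_num) (by omega)))
    rw [this] at h
    exact Bool.noConfusion h
  have h0 : ((List.range 46).all fun v => (List.range 64).all fun g =>
    !tb lvT (64 * v + g) || lev g v) = true := by decide +kernel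
  rw [List.all_eq_true] at h0
  have h1 := h0 v (List.mem_range.2 hv)
  rw [List.all_eq_true] at h1
  have h2 := h1 g (List.mem_range.2 hg)
  rw [tb_testBit, h, Bool.not_true, Bool.false_or] at h2
  exact h2

/-- the masks of the view letters, mirror image -/
theorem lmj_ok (v g : Nat) (h : Nat.testBit (lmj v) g = true) :
    g < 64 ∧ lev (lmr g) v = true := by
  have e : lmj v = (lmvT >>> (64 * v)) % 2 ^ 64 := rfl
  rw [e, Nat.testBit_mod_two_pow, Bool.and_eq_true, decide_eq_true_eq,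
    Nat.testBit_shiftRight] at h
  obtain ⟨hg, h⟩ := h
  refine ⟨hg, ?_⟩
  have hv : v < 46 := by
    by_contra hc
    have : Nat.testBit lmvT (64 * v + g) = false :=
      Nat.testBit_lt_two_pow (lt_of_lt_of_le (b := 2 ^ 2944) (by decide +kernel)
        (Nat.pow_le_pow_right (by norm_num) (by omega)))
    rw [this] at h
    exact Bool.noConfusion h
  have h0 : ((List.range 46).all fun v => (List.range 64).all fun g =>
    !tb lmvT (64 * v + g) || lev (lmr g) v) = true := by decide +kernel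
  rw [List.all_eq_true] at h0
  have h1 := h0 v (List.mem_range.2 hv)
  rw [List.all_eq_true] at h1
  have h2 := h1 g (List.mem_range.2 hg)
  rw [tb_testBit, h, Bool.not_true, Bool.false_or] at h2
  exact h2

/-- the letters of the facts -/
theorem lt_all {x : Nat} (hx : lal x = true) :
    (0 < tg6 ltT (blf (ccf x) + 1) ∧ tg6 ltT (blf (ccf x) + 1) < 63 ∧
      leb (tg6 ltT (blf (ccf x) + 1) - 1) (blf (ccf x)) = true) ∧
    0 < tg6 ltmT (blf (ccf x) + 1) ∧ tg6 ltmT (blf (ccf x) + 1) < 63 ∧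
      leb (lmr (tg6 ltmT (blf (ccf x) + 1) - 1)) (blf (ccf x)) = true := by
  have h := lal_all (f := fun x => decide (0 < tg6 ltT (blf (ccf x) + 1)) &&
    decide (tg6 ltT (blf (ccf x) + 1) < 63) && leb (tg6 ltT (blf (ccf x) + 1) - 1) (blf (ccf x)) &&
    decide (0 < tg6 ltmT (blf (ccf x) + 1)) && decide (tg6 ltmT (blf (ccf x) + 1) < 63) &&
    leb (lmr (tg6 ltmT (blf (ccf x) + 1) - 1)) (blf (ccf x))) (by decide +kernel) hx
  simp only [Bool.and_eq_true, decide_eq_true_eq] at h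
  obtain ⟨⟨⟨⟨⟨h1, h2⟩, h3⟩, h4⟩, h5⟩, h6⟩ := h
  exact ⟨⟨h1, h2, h3⟩, h4, h5, h6⟩

/-- conflicts of the classes, first table -/
def cFb (k X m a n b : Nat) : Bool :=
  tb (gFj k X) (Nat.add (Nat.mul 64 (Nat.add a (Nat.mul 20 m))) (Nat.add b (Nat.mul 20 n)))

/-- conflicts of the classes, second table -/
def cLb (k X m a n b : Nat) : Bool :=
  tb (gLj k X) (Nat.add (Nat.mul 64 (Nat.add b (Nat.mul 20 n))) (Nat.add a (Nat.mul 20 m)))

theorem cFb_all {k l m n x y : Nat} (hk : k < 3) (hm : m < 3) (hn : n < 3)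
    (h1 : p2 k l m x = true) (h2 : p2 n y k l = true) (h3 : g4 (6 - k) l (6 - m) (6 - n) x y = true) :
    cFb k (ccf l + 1) m (blx x + 1) n (blx y + 1) = false := by
  have h0 : ((List.range 27).all fun l => (List.range 27).all fun x => !cmpf l x ||
    ((List.range 27).all fun y => !cmpf y l ||
    ((List.range 3).all fun k => (List.range 3).all fun m => !p2 k l m x ||
      ((List.range 3).all fun n => !p2 n y k l || !g4 (6 - k) l (6 - m) (6 - n) x y ||
        !cFb k (ccf l + 1) m (blx x + 1) n (blx y + 1))))) = true := by decide +kernel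
  have e1 := h1
  have e2 := h2
  unfold p2 at e1 e2
  simp only [Bool.and_eq_true] at e1 e2
  have c1 := e1.1.1.1
  have c2 := e2.1.1.1
  have c1' := c1
  have c2' := c2
  unfold cmpf at c1' c2'
  simp only [Bool.and_eq_true] at c1' c2'
  rw [List.all_eq_true] at h0
  have h0 := h0 l (List.mem_range.2 (lal_lt c1'.1.1))
  rw [List.all_eq_true] at h0
  have h0 := h0 x (List.mem_range.2 (lal_lt c1'.1.2))
  rw [c1, Bool.not_true, Bool.false_or, List.all_eq_true] at h0
  have h0 := h0 y (List.mem_range.2 (lal_lt c2'.1.1))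
  rw [c2, Bool.not_true, Bool.false_or, List.all_eq_true] at h0
  have h0 := h0 k (List.mem_range.2 hk)
  rw [List.all_eq_true] at h0
  have h0 := h0 m (List.mem_range.2 hm)
  rw [h1, Bool.not_true, Bool.false_or, List.all_eq_true] at h0
  have h0 := h0 n (List.mem_range.2 hn)
  rw [h2, h3] at h0
  simpa using h0

theorem cLb_all {k l m n x y : Nat} (hk : k < 3) (hm : m < 3) (hn : n < 3)
    (h1 : p2 k l m x = true) (h2 : p2 n y k l = true) (h3 : g4 (6 - k) l (6 - m) (6 - n) x y = true) :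
    cLb k (ccf l + 1) m (blx x + 1) n (blx y + 1) = false := by
  have h0 : ((List.range 27).all fun l => (List.range 27).all fun x => !cmpf l x ||
    ((List.range 27).all fun y => !cmpf y l ||
    ((List.range 3).all fun k => (List.range 3).all fun m => !p2 k l m x ||
      ((List.range 3).all fun n => !p2 n y k l || !g4 (6 - k) l (6 - m) (6 - n) x y ||
        !cLb k (ccf l + 1) m (blx x + 1) n (blx y + 1))))) = true := by decide +kernel
  have e1 := h1
  have e2 := h2
  unfold p2 at e1 e2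
  simp only [Bool.and_eq_true] at e1 e2
  have c1 := e1.1.1.1
  have c2 := e2.1.1.1
  have c1' := c1
  have c2' := c2
  unfold cmpf at c1' c2'
  simp only [Bool.and_eq_true] at c1' c2'
  rw [List.all_eq_true] at h0
  have h0 := h0 l (List.mem_range.2 (lal_lt c1'.1.1))
  rw [List.all_eq_true] at h0
  have h0 := h0 x (List.mem_range.2 (lal_lt c1'.1.2))
  rw [c1, Bool.not_true, Bool.false_or, List.all_eq_true] at h0
  have h0 := h0 y (List.mem_range.2 (lal_lt c2'.1.1))
  rw [c2, Bool.not_true, Bool.false_or, List.all_eq_true] at h0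
  have h0 := h0 k (List.mem_range.2 hk)
  rw [List.all_eq_true] at h0
  have h0 := h0 m (List.mem_range.2 hm)
  rw [h1, Bool.not_true, Bool.false_or, List.all_eq_true] at h0
  have h0 := h0 n (List.mem_range.2 hn)
  rw [h2, h3] at h0
  simpa using h0

/-- the classes of a neighbour -/
theorem cl_w {a : List Nat} (ha : glf a = true) :
    clL (nfc bmT wmT smT (enc (a.map ccf))) =
      blx (a.getD (a.length - 1) 0) + 1 + 20 * (6 - (a.map wl).sum) ∧
    clF (nfc bmT wmT smT (enc (a.map ccf))) =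
      blx (a.getD 0 0) + 1 + 20 * (6 - (a.map wl).sum) := by
  have la := blc_lt ha
  obtain ⟨a4, a6, -, -, aa, -⟩ := glf_w ha
  have e1 : slf (nfc bmT wmT smT (enc (a.map ccf))) = 6 - (a.map wl).sum := by
    rw [slf_nfc la, wsl_w ha]
  have e3 : Nat.mod (nfc bmT wmT smT (enc (a.map ccf))) 32 = blx (a.getD 0 0) + 1 := by
    have h1 : Nat.mod (lo (nfc bmT wmT smT (enc (a.map ccf)))) 32 =
        Nat.mod (nfc bmT wmT smT (enc (a.map ccf))) 32 := by
      show nfc bmT wmT smT (enc (a.map ccf)) % 1073741824 % 32 = _ % 32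
      omega
    rw [← h1, lo_nfc la, blc_w ha]
    have h2 := enc_first (sm_bl aa) (by rw [List.length_map]; omega)
    show enc (a.map blx) % 32 = _
    rw [h2, getD_map0 (by omega)]
  have e4 : Nat.div (lo (nfc bmT wmT smT (enc (a.map ccf))))
      (pwF (lo (nfc bmT wmT smT (enc (a.map ccf))))) = blx (a.getD (a.length - 1) 0) + 1 := by
    rw [lo_nfc la, blc_w ha, pwF_eq]
    have h2 := enc_last (sm_bl aa) (by rw [List.length_map]; omega)
      (by rw [List.length_map]; omega)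
    show enc (a.map blx) / pw (enc (a.map blx)) = _
    rw [h2, List.length_map, getD_map0 (by omega)]
  constructor
  · unfold clL
    rw [e4, e1]
    rfl
  · unfold clF
    rw [e3, e1]
    rfl

variable {D : Type} {Y : FCS.Sys D} {e r : D}

theorem getD_last3 {l : List Nat} (h : l ≠ []) : l.getD (l.length - 1) 0 ∈ l := by
  have : 0 < l.length := List.length_pos_iff.2 h
  exact getD_mem (by omega)

/-- the letters at an edge -/
theorem p2_at3 (hY : SyG Y) (hr : Y.W r ≠ []) (ha : Y.W (Y.al r) ≠ []) :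
    p2 (6 - ((Y.W r).map wl).sum) ((Y.W r).getD 0 0) (6 - ((Y.W (Y.al r)).map wl).sum)
      ((Y.W (Y.al r)).getD ((Y.W (Y.al r)).length - 1) 0) = true := by
  obtain ⟨l4, -, s6, -, -, k1⟩ := glf_w (hY.gl r hr)
  obtain ⟨m4, -, t6, -, -, k2⟩ := glf_w (hY.gl _ ha)
  have hg2 := hY.g2 r hr ha
  unfold G2 at hg2
  unfold p2
  rw [hY.ok.cmp r hr ha, k1 _ (getD_mem (by omega)), k2 _ (getD_last3 ha),
    show 6 - (6 - ((Y.W r).map wl).sum) = ((Y.W r).map wl).sum by omega,
    show 6 - (6 - ((Y.W (Y.al r)).map wl).sum) = ((Y.W (Y.al r)).map wl).sum by omega, hg2]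
  rfl

/-- the letters at three vertices -/
theorem p4_at3 (hY : SyG Y) (hr : Y.W r ≠ []) (ha : Y.W (Y.al r) ≠ [])
    (hb : Y.W (Y.al (Y.nx r)) ≠ []) :
    p2 (6 - ((Y.W (Y.al (Y.nx r))).map wl).sum) ((Y.W (Y.al (Y.nx r))).getD 0 0)
      (6 - ((Y.W r).map wl).sum) ((Y.W r).getD 0 0) = true ∧
    g4 (6 - (6 - ((Y.W r).map wl).sum)) ((Y.W r).getD 0 0) (6 - (6 - ((Y.W (Y.al r)).map wl).sum))
      (6 - (6 - ((Y.W (Y.al (Y.nx r))).map wl).sum))
      ((Y.W (Y.al r)).getD ((Y.W (Y.al r)).length - 1) 0)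
      ((Y.W (Y.al (Y.nx r))).getD 0 0) = true := by
  have hrn : Y.W (Y.nx r) ≠ [] := hY.ok.ne_nx hr
  have h2 := p2_at3 (r := Y.al (Y.nx r)) hY hb (by rw [hY.ok.alal]; exact hrn)
  rw [hY.ok.alal] at h2
  have hrot := hY.ok.rot r hr
  have hlen := (hY.ok.len r hr).1
  have e1 : (Y.W (Y.nx r)).getD ((Y.W (Y.nx r)).length - 1) 0 = (Y.W r).getD 0 0 := by
    rw [hrot, List.length_rotate,
      List.getD_eq_getElem _ _ (by rw [List.length_rotate]; omega), List.getElem_rotate,
      List.getD_eq_getElem _ _ (by omega)]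
    congr 1
    rw [show (Y.W r).length - 1 + 1 = (Y.W r).length by omega, Nat.mod_self]
  have e2 : ((Y.W (Y.nx r)).map wl).sum = ((Y.W r).map wl).sum := by
    rw [hrot]
    exact ((List.rotate_perm _ 1).map _).sum_eq
  rw [e1, e2] at h2
  obtain ⟨-, -, s6, -, -, -⟩ := glf_w (hY.gl r hr)
  obtain ⟨-, -, t6, -, -, -⟩ := glf_w (hY.gl _ ha)
  obtain ⟨-, -, u6, -, -, -⟩ := glf_w (hY.gl _ hb)
  refine ⟨h2, ?_⟩
  have h3 := hY.g4 r hr ha hb
  unfold G4 at h3
  rw [show 6 - (6 - ((Y.W r).map wl).sum) = ((Y.W r).map wl).sum by omega,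
    show 6 - (6 - ((Y.W (Y.al r)).map wl).sum) = ((Y.W (Y.al r)).map wl).sum by omega,
    show 6 - (6 - ((Y.W (Y.al (Y.nx r))).map wl).sum) =
      ((Y.W (Y.al (Y.nx r))).map wl).sum by omega]
  exact h3

/-- THE STAR INEQUALITY from the checks of the tables (second version of the star check) -/
theorem star_of3 {den sh nu nl w dl h4 h5 : Nat} {T SG : BT (List (Nat × Nat))}
    {PF PD WL : BT (List Nat)} {cd : Nat → Nat → Nat} {kt FN : Nat → Nat} {mo : Nat → Nat → Bool}
    {FB : BT (List FCS.Fct)} {CB : BT (List CE2)}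
    (hF : ∀ p ∈ FB.toList, ∀ X ∈ p.2, Gf X)
    (hfn : ∀ l, ∀ X ∈ FCS.dF (FN l), Gf X)
    (hcd : ∀ a i, cd a i = cda ((mkQ den sh nu nl T SG PF).pos a 0).cl i)
    (hsh : 12 * den ≤ 4 * (sh + 2 * den))
    (hmo : ∀ x y, mo x y = true → memF y (getF PF x) = true)
    (hkt : ∀ a, kt a ≠ 0 →
      (mkW (mkP (mkQ den sh nu nl T SG PF) w cd dl h4 h5) kt mo FN).kok a (kt a) = true)
    (hPF : PF.allB (fun x ys => pfdb leb lmr FB x ys (PD.get x)) = true)
    (hCB : CB.allB (mkW (mkP (mkQ den sh nu nl T SG PF) w cd dl h4 h5) kt mo FN).ckc = true)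
    (hSG : SG.allB ((mkP (mkQ den sh nu nl T SG PF) w cd dl h4 h5).soc WL) = true)
    (hc0 : ∀ x ∈ al0, chk1 ((mkW (mkP (mkQ den sh nu nl T SG PF) w cd dl h4 h5) kt mo FN).cow
      CB WL) x = true)
    (hc1 : ∀ x ∈ al1, chk1 ((mkW (mkP (mkQ den sh nu nl T SG PF) w cd dl h4 h5) kt mo FN).cow
      CB WL) x = true) :
    StarOk3 den nl nu dl (hgf h4 h5)
      (fun a b => (mkQ den sh nu nl T SG PF).fw (a.map ccf) (b.map ccf)) := by
  intro D Y hY e he
  have hX : ∀ X, Gf X → NoX lle lmr lsol Y X := fun X h => by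
    rw [lmr_eq]; exact hY.nox X h
  have hal : ∀ e, ∀ x ∈ Y.W e, lal x = true := by
    intro e x hx
    have h0 : Y.W e ≠ [] := by
      intro h; rw [h] at hx; simp at hx
    exact (glf_w (hY.gl e h0)).2.2.2.2.1 x hx
  have hks : ∀ e, Y.W e ≠ [] → wsl wmT ((Y.mp ccf).c e) = 6 - ((Y.W e).map wl).sum :=
    fun e he => wsl_w (hY.gl e he)
  have hk3 : ∀ e, Y.W e ≠ [] → 6 - ((Y.W e).map wl).sum < 3 := fun e he =>
    (glf_w (hY.gl e he)).2.2.2.1
  have hP2 := fun r hr ha => p2_at3 (r := r) hY hr ha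
  refine star_allc2 (W := mkW (mkP (mkQ den sh nu nl T SG PF) w cd dl h4 h5) kt mo FN) (f := blf)
    (cc := ccf) (lng := lng) (cmpS := cmpf) (le := lle) (ml := lmr) (FB := FB) (PD := PD)
    (CB := CB) (WL := WL) (glY := glY) hY.ok (fun p hp X hx => hX X (hF p hp X hx))
    ⟨⟨lvj_ok, lmj_ok, fun e x hx => (lt_all (hal e x hx)).1, fun e x hx =>
      (lt_all (hal e x hx)).2⟩, ?_, ?_, hmo, hkt, fun l X hx => hX X (hfn l X hx)⟩
    hY.nr (fun e he => glY_cc (hY.gl e he)) ?_ ?_ ?_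
    (fun g v h x hx => lev_all h x hx) (fun v x hx => (lg_all hx).1) ?_ ?_ ?_ ?_
    (fun r _ _ _ v _ => rfl) hcd hsh (fun e x hx => ?_) hPF hCB hSG ?_ e he
  · -- conflicts of the classes, first table
    intro r hr ha hb
    show Nat.testBit (Nat.shiftRight (gFj (wsl wmT ((Y.mp ccf).c r)) (ccf ((Y.W r).getD 0 0) + 1))
      (Nat.mul 64 (clL (nfc bmT wmT smT (enc ((Y.W (Y.al r)).map ccf))))))
      (clF (nfc bmT wmT smT (enc ((Y.W (Y.al (Y.nx r))).map ccf)))) = false
    rw [hks r hr, (cl_w (hY.gl _ ha)).1, (cl_w (hY.gl _ hb)).2]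
    obtain ⟨h2, h3⟩ := p4_at3 hY hr ha hb
    have h4 := cFb_all (hk3 r hr) (hk3 _ ha) (hk3 _ hb) (hP2 r hr ha) h2 h3
    unfold cFb at h4
    rw [tb_testBit] at h4
    have e1 : ∀ N s i : Nat, Nat.testBit (Nat.shiftRight N s) i = Nat.testBit N (s + i) :=
      fun N s i => Nat.testBit_shiftRight ..
    rw [e1]
    exact h4
  · -- conflicts of the classes, second table
    intro r hr ha hb
    show Nat.testBit (Nat.shiftRight (gLj (wsl wmT ((Y.mp ccf).c r)) (ccf ((Y.W r).getD 0 0) + 1))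
      (Nat.mul 64 (clF (nfc bmT wmT smT (enc ((Y.W (Y.al (Y.nx r))).map ccf))))))
      (clL (nfc bmT wmT smT (enc ((Y.W (Y.al r)).map ccf)))) = false
    rw [hks r hr, (cl_w (hY.gl _ ha)).1, (cl_w (hY.gl _ hb)).2]
    obtain ⟨h2, h3⟩ := p4_at3 hY hr ha hb
    have h4 := cLb_all (hk3 r hr) (hk3 _ ha) (hk3 _ hb) (hP2 r hr ha) h2 h3
    unfold cLb at h4
    rw [tb_testBit] at h4
    have e1 : ∀ N s i : Nat, Nat.testBit (Nat.shiftRight N s) i = Nat.testBit N (s + i) :=
      fun N s i => Nat.testBit_shiftRight ..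
    rw [e1]
    exact h4
  · -- compatible letters
    intro x y h
    have h0 := cmpf_all (f := fun x y => cme (ccf x + 1) (ccf y + 1) &&
      cmb (blf (ccf x) + 1) (blf (ccf y) + 1)) (by decide +kernel) h
    rw [Bool.and_eq_true] at h0
    exact h0
  · -- letters
    intro e x hx
    have hl := hal e x hx
    obtain ⟨a1, a2, a3, a4, a5, a6, a7, a8, a9⟩ := let_all hl
    exact ⟨a1, a2, a3, a4, a5, a6, a7, a8, fun g hgg => leb_all hl hgg⟩
  · -- impossible letters
    intro e i hi p n hp hn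
    have h0 : Y.W e ≠ [] := by
      intro h; rw [h] at hi; simp at hi
    show imp (wsl wmT ((Y.mp ccf).c e)) _ p n = false
    rw [hks e h0]
    exact imp_ok (hY.gl e h0) hi hp hn
  · -- pairs of letters
    intro r hr ha
    show r2b (wsl wmT ((Y.mp ccf).c r)) _ (wsl wmT ((Y.mp ccf).c (Y.al r))) _ = true
    rw [hks r hr, hks _ ha]
    exact r2_all (hk3 r hr) (hk3 _ ha) (hP2 r hr ha)
  · intro r hr ha v hv
    show ua (wsl wmT ((Y.mp ccf).c r)) v (wsl wmT ((Y.mp ccf).c (Y.al r))) _ = true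
    rw [hks r hr, hks _ ha]
    exact ua_all (hk3 r hr) (hk3 _ ha) (hP2 r hr ha) hv
  · intro r hr ha v hv
    show ub (wsl wmT ((Y.mp ccf).c r)) v (wsl wmT ((Y.mp ccf).c (Y.al r))) _ = true
    rw [hks r hr, hks _ ha]
    have h1 := hP2 (Y.al r) ha (by rw [hY.ok.alal]; exact hr)
    rw [hY.ok.alal] at h1
    exact ub_all (hk3 r hr) (hk3 _ ha) h1 hv
  · -- three vertices
    intro r hr ha hb
    show gk (wsl wmT ((Y.mp ccf).c r)) (ccf ((Y.W r).getD 0 0) + 1)
      (nfc bmT wmT smT (enc ((Y.W (Y.al r)).map ccf)))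
      (nfc bmT wmT smT (enc ((Y.W (Y.al (Y.nx r))).map ccf))) = false
    rw [hks r hr, gk_w (hY.gl _ ha) (hY.gl _ hb)]
    obtain ⟨h2, h3⟩ := p4_at3 hY hr ha hb
    exact gk_all (hk3 r hr) (hk3 _ ha) (hk3 _ hb) (hP2 r hr ha) h2 h3
  · -- prices of the letters
    obtain ⟨-, -, -, a4, a5, -⟩ := let_all (hal e x hx)
    show hdf h4 h5 (ccf x + 1) = hgf h4 h5 x
    unfold hdf hgf
    rw [a4, a5]
    cases lsol x
    · cases lng x <;> rfl
    · rfl
  · -- all words
    exact glY_all hc0 hc1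

end

end Pool.FCK
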