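import Pool.Agent.FCS.Wj
import Pool.Agent.FC7.StF

/-! # Star check, second version: the facts of a tree of numbers -/

namespace Pool.FCK

open Pool.FCS Pool.FC7

/-- all facts of the lists of a tree hold -/
def OkT (t : BT Nat) : Prop := ∀ p ∈ t.toList, ∀ X ∈ FCS.dF p.2, Gf X

theorem OkT.lf : OkT .lf := fun _ h => absurd h List.not_mem_nil

theorem OkT.nd {l r : BT Nat} {k v : Nat} (hl : OkT l) (hv : ∀ X ∈ FCS.dF v, Gf X)
    (hr : OkT r) : OkT (.nd l k v r) := by
  intro p hp
  have hp' : p ∈ l.toList ++ (k, v) :: r.toList := hp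
  rcases List.mem_append.1 hp' with h | h
  · exact hl p h
  · rcases List.mem_cons.1 h with h | h
    · subst h; exact hv
    · exact hr p h

/-- a leaf with one list -/
theorem OkT.one {k v : Nat} (hv : ∀ X ∈ FCS.dF v, Gf X) : OkT (.nd .lf k v .lf) :=
  OkT.nd OkT.lf hv OkT.lf

/-- the same tree -/
theorem OkT.eq {s t : BT Nat} (e : s = t) (h : OkT s) : OkT t := by
  subst e; exact h

theorem dF_zero : FCS.dF 0 = [] := by decide +kernel

/-- all facts of the lists hold -/
theorem OkT.fn {t : BT Nat} (h : OkT t) : ∀ l, ∀ X ∈ FCS.dF (t.getN l), Gf X := by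
  intro l X hX
  by_cases h0 : t.getN l = 0
  · rw [h0, dF_zero] at hX
    exact absurd hX List.not_mem_nil
  · exact h _ (BT.getN_mem h0) X hX

/-- the table of the facts as lists -/
theorem OkT.fb {t : BT Nat} (h : OkT t) : ∀ p ∈ (t.mp FCS.dF).toList, ∀ X ∈ p.2, Gf X := by
  intro p hp X hX
  rw [BT.toList_mp] at hp
  obtain ⟨q, hq, rfl⟩ := List.mem_map.1 hp
  exact h q hq X hX

end Pool.FCK
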