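import Pool.Agent.FCK.Jq
import Pool.Agent.FCK.Jr

/-! # Star check, second version: the tables as numbers -/

namespace Pool.FCK

open Pool.FCS Pool.FC7

noncomputable section

/-- the pairs of a packed table -/
theorem mo_ok {tP : BT Nat} (x y : Nat) (h : mbs (tP.getN x) y = true) :
    memF y (getF (tP.mp (dN 30)) x) = true := by
  have h1 : memF y (dN 30 (tP.getN x)) = true := mbs_mem h
  rw [getF_eq, BT.get_mp rfl]
  exact h1

/-- THE STAR INEQUALITY from the checks of the packed tables -/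
theorem star_of4 {den sh nu nl w dl h4 h5 : Nat} {tT tG tP tK tF : BT Nat}
    {PD WL : BT (List Nat)} {CB : BT (List CE2)} (hF : OkT tF)
    (hsh : 12 * den ≤ 4 * (sh + 2 * den))
    (hK : tK.allB (mkW (mkP (mkQ den sh nu nl (tT.mp dP) (tG.mp dP) (tP.mp (dN 30))) w
      (cdf (tT.mp dP) tG) dl h4 h5) tK.getN (fun x y => mbs (tP.getN x) y) tF.getN).kok = true)
    (hPF : (tP.mp (dN 30)).allB (fun x ys => pfdb leb lmr (tF.mp dF) x ys (PD.get x)) = true)
    (hCB : CB.allB (mkW (mkP (mkQ den sh nu nl (tT.mp dP) (tG.mp dP) (tP.mp (dN 30))) w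
      (cdf (tT.mp dP) tG) dl h4 h5) tK.getN (fun x y => mbs (tP.getN x) y) tF.getN).ckc = true)
    (hSG : (tG.mp dP).allB ((mkP (mkQ den sh nu nl (tT.mp dP) (tG.mp dP) (tP.mp (dN 30))) w
      (cdf (tT.mp dP) tG) dl h4 h5).soc WL) = true)
    (hc0 : ∀ x ∈ al0, chk1 ((mkW (mkP (mkQ den sh nu nl (tT.mp dP) (tG.mp dP) (tP.mp (dN 30))) w
      (cdf (tT.mp dP) tG) dl h4 h5) tK.getN (fun x y => mbs (tP.getN x) y) tF.getN).cow
        CB WL) x = true)
    (hc1 : ∀ x ∈ al1, chk1 ((mkW (mkP (mkQ den sh nu nl (tT.mp dP) (tG.mp dP) (tP.mp (dN 30))) w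
      (cdf (tT.mp dP) tG) dl h4 h5) tK.getN (fun x y => mbs (tP.getN x) y) tF.getN).cow
        CB WL) x = true) :
    StarOk3 den nl nu dl (hgf h4 h5)
      (fun a b => (mkQ den sh nu nl (tT.mp dP) (tG.mp dP) (tP.mp (dN 30))).fw
        (a.map ccf) (b.map ccf)) :=
  star_of3 (kt := tK.getN) (FN := tF.getN) (mo := fun x y => mbs (tP.getN x) y)
    (FB := tF.mp dF) (PD := PD) (CB := CB) (WL := WL) hF.fb hF.fn
    (fun a i => cdf_ok (Q := mkQ den sh nu nl (tT.mp dP) (tG.mp dP) (tP.mp (dN 30))) rfl a i) hsh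
    (fun x y h => mo_ok x y h) (Pw.kt_of hK) hPF hCB hSG hc0 hc1

end

end Pool.FCK
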