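import Pool.Agent.FCK.Js
import Pool.Agent.FCS.Xf
import Pool.Agent.FCS.Xj
import Pool.Agent.FC7.StH

/-! # Star check with flows on triangles: the star inequality for the concrete tables -/

set_option maxRecDepth 1000000

namespace Pool.FCK

open Pool.FCS Pool.FC7

noncomputable section

/-- THE STAR INEQUALITY with flows on triangles -/
theorem star_ofx3 {den sh nu nl w dl h4 h5 : Nat} {T SG : BT (List (Nat × Nat))}
    {PF PD WL : BT (List Nat)} {cd : Nat → Nat → Nat} {kt FN : Nat → Nat} {mo : Nat → Nat → Bool}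
    {FB : BT (List FCS.Fct)} {CB : BT (List CE2)} {M B C V ka : Nat → Nat}
    (hF : ∀ p ∈ FB.toList, ∀ X ∈ p.2, Gf X)
    (hfn : ∀ l, ∀ X ∈ FCS.dF (FN l), Gf X)
    (hcd : ∀ a i, cd a i = cda ((mkQ den sh nu nl T SG PF).pos a 0).cl i)
    (hsh : 12 * den ≤ 4 * (sh + 2 * den))
    (hmo : ∀ x y, mo x y = true → memF y (getF PF x) = true)
    (hkt : ∀ a, kt a ≠ 0 →
      (mkW (mkP (mkQ den sh nu nl T SG PF) w cd dl h4 h5) kt mo FN).kok a (kt a) = true)
    (hPF : PF.allB (fun x ys => pfdb leb lmr FB x ys (PD.get x)) = true)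
    (hCB : CB.allB (Px.mk (mkW (mkP (mkQ den sh nu nl T SG PF) w cd dl h4 h5) kt mo FN)
      M B C V ka).ckc = true)
    (hx : Kt (Px.mk (mkW (mkP (mkQ den sh nu nl T SG PF) w cd dl h4 h5) kt mo FN)
      M B C V ka) WL)
    (hc0 : ∀ x ∈ al0, chk1 ((mkW (mkP (mkQ den sh nu nl T SG PF) w cd dl h4 h5) kt mo FN).cow
      CB WL) x = true)
    (hc1 : ∀ x ∈ al1, chk1 ((mkW (mkP (mkQ den sh nu nl T SG PF) w cd dl h4 h5) kt mo FN).cow
      CB WL) x = true) :
    StarOkX den nl nu dl (hgf h4 h5)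
      (fun a b => (mkQ den sh nu nl T SG PF).fw (a.map ccf) (b.map ccf))
      (fun a b c => (Px.mk (mkW (mkP (mkQ den sh nu nl T SG PF) w cd dl h4 h5) kt mo FN)
        M B C V ka).xw (a.map ccf) (b.map ccf) (c.map ccf)) := by
  intro D Y hY e he
  have hX : ∀ X, Gf X → NoX lle lmr lsol Y X := fun X h => by
    rw [lmr_eq]; exact hY.nox X h
  have hal : ∀ e, ∀ x ∈ Y.W e, lal x = true := by
    intro e x hx
    have h0 : Y.W e ≠ [] := by
      intro h; rw [h] at hx; simp at hx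
    exact (glf_w (hY.gl e h0)).2.2.2.2.1 x hx
  have hks : ∀ e, Y.W e ≠ [] → wsl wmT ((Y.mp ccf).c e) = 6 - ((Y.W e).map wl).sum :=
    fun e he => wsl_w (hY.gl e he)
  have hk3 : ∀ e, Y.W e ≠ [] → 6 - ((Y.W e).map wl).sum < 3 := fun e he =>
    (glf_w (hY.gl e he)).2.2.2.1
  have hP2 := fun r hr ha => p2_at3 (r := r) hY hr ha
  refine star_allc3 (X := Px.mk (mkW (mkP (mkQ den sh nu nl T SG PF) w cd dl h4 h5) kt mo FN)
    M B C V ka) (f := blf)
    (cc := ccf) (lng := lng) (cmpS := cmpf) (le := lle) (ml := lmr) (FB := FB) (PD := PD)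
    (CB := CB) (WL := WL) (glY := glY) hY.ok (fun p hp X hx => hX X (hF p hp X hx))
    ⟨⟨lvj_ok, lmj_ok, fun e x hx => (lt_all (hal e x hx)).1, fun e x hx =>
      (lt_all (hal e x hx)).2⟩, ?_, ?_, hmo, hkt, fun l X hx => hX X (hfn l X hx)⟩
    hY.nr (fun e he => glY_cc (hY.gl e he)) ?_ ?_ ?_
    (fun g v h x hx => lev_all h x hx) (fun v x hx => (lg_all hx).1) ?_ ?_ ?_ ?_
    (fun r _ _ _ v _ => rfl) hcd hsh (fun e x hx => ?_) hPF hCB hx ?_ e he
  · -- conflicts of the classes, first table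
    intro r hr ha hb
    show Nat.testBit (Nat.shiftRight (gFj (wsl wmT ((Y.mp ccf).c r)) (ccf ((Y.W r).getD 0 0) + 1))
      (Nat.mul 64 (clL (nfc bmT wmT smT (enc ((Y.W (Y.al r)).map ccf))))))
      (clF (nfc bmT wmT smT (enc ((Y.W (Y.al (Y.nx r))).map ccf)))) = false
    rw [hks r hr, (cl_w (hY.gl _ ha)).1, (cl_w (hY.gl _ hb)).2]
    obtain ⟨h2, h3⟩ := p4_at3 hY hr ha hb
    have h4 := cFb_all (hk3 r hr) (hk3 _ ha) (hk3 _ hb) (hP2 r hr ha) h2 h3
    unfold cFb at h4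
    rw [tb_testBit] at h4
    have e1 : ∀ N s i : Nat, Nat.testBit (Nat.shiftRight N s) i = Nat.testBit N (s + i) :=
      fun N s i => Nat.testBit_shiftRight ..
    rw [e1]
    exact h4
  · -- conflicts of the classes, second table
    intro r hr ha hb
    show Nat.testBit (Nat.shiftRight (gLj (wsl wmT ((Y.mp ccf).c r)) (ccf ((Y.W r).getD 0 0) + 1))
      (Nat.mul 64 (clF (nfc bmT wmT smT (enc ((Y.W (Y.al (Y.nx r))).map ccf))))))
      (clL (nfc bmT wmT smT (enc ((Y.W (Y.al r)).map ccf)))) = false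
    rw [hks r hr, (cl_w (hY.gl _ ha)).1, (cl_w (hY.gl _ hb)).2]
    obtain ⟨h2, h3⟩ := p4_at3 hY hr ha hb
    have h4 := cLb_all (hk3 r hr) (hk3 _ ha) (hk3 _ hb) (hP2 r hr ha) h2 h3
    unfold cLb at h4
    rw [tb_testBit] at h4
    have e1 : ∀ N s i : Nat, Nat.testBit (Nat.shiftRight N s) i = Nat.testBit N (s + i) :=
      fun N s i => Nat.testBit_shiftRight ..
    rw [e1]
    exact h4
  · -- compatible letters
    intro x y h
    have h0 := cmpf_all (f := fun x y => cme (ccf x + 1) (ccf y + 1) &&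
      cmb (blf (ccf x) + 1) (blf (ccf y) + 1)) (by decide +kernel) h
    rw [Bool.and_eq_true] at h0
    exact h0
  · -- letters
    intro e x hx
    have hl := hal e x hx
    obtain ⟨a1, a2, a3, a4, a5, a6, a7, a8, a9⟩ := let_all hl
    exact ⟨a1, a2, a3, a4, a5, a6, a7, a8, fun g hgg => leb_all hl hgg⟩
  · -- impossible letters
    intro e i hi p n hp hn
    have h0 : Y.W e ≠ [] := by
      intro h; rw [h] at hi; simp at hi
    show imp (wsl wmT ((Y.mp ccf).c e)) _ p n = false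
    rw [hks e h0]
    exact imp_ok (hY.gl e h0) hi hp hn
  · -- pairs of letters
    intro r hr ha
    show r2b (wsl wmT ((Y.mp ccf).c r)) _ (wsl wmT ((Y.mp ccf).c (Y.al r))) _ = true
    rw [hks r hr, hks _ ha]
    exact r2_all (hk3 r hr) (hk3 _ ha) (hP2 r hr ha)
  · intro r hr ha v hv
    show ua (wsl wmT ((Y.mp ccf).c r)) v (wsl wmT ((Y.mp ccf).c (Y.al r))) _ = true
    rw [hks r hr, hks _ ha]
    exact ua_all (hk3 r hr) (hk3 _ ha) (hP2 r hr ha) hv
  · intro r hr ha v hv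
    show ub (wsl wmT ((Y.mp ccf).c r)) v (wsl wmT ((Y.mp ccf).c (Y.al r))) _ = true
    rw [hks r hr, hks _ ha]
    have h1 := hP2 (Y.al r) ha (by rw [hY.ok.alal]; exact hr)
    rw [hY.ok.alal] at h1
    exact ub_all (hk3 r hr) (hk3 _ ha) h1 hv
  · -- three vertices
    intro r hr ha hb
    show gk (wsl wmT ((Y.mp ccf).c r)) (ccf ((Y.W r).getD 0 0) + 1)
      (nfc bmT wmT smT (enc ((Y.W (Y.al r)).map ccf)))
      (nfc bmT wmT smT (enc ((Y.W (Y.al (Y.nx r))).map ccf))) = false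
    rw [hks r hr, gk_w (hY.gl _ ha) (hY.gl _ hb)]
    obtain ⟨h2, h3⟩ := p4_at3 hY hr ha hb
    exact gk_all (hk3 r hr) (hk3 _ ha) (hk3 _ hb) (hP2 r hr ha) h2 h3
  · -- prices of the letters
    obtain ⟨-, -, -, a4, a5, -⟩ := let_all (hal e x hx)
    show hdf h4 h5 (ccf x + 1) = hgf h4 h5 x
    unfold hdf hgf
    rw [a4, a5]
    cases lsol x
    · cases lng x <;> rfl
    · rfl
  · -- all words
    exact glY_all hc0 hc1

/-- THE STAR INEQUALITY with flows on triangles, from the checks of the packed tables -/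
theorem star_ofx4 {den sh nu nl w dl h4 h5 : Nat} {tT tG tP tK tF tM tB tC tV tA : BT Nat}
    {PD WL : BT (List Nat)} {CB : BT (List CE2)} (hF : OkT tF)
    (hsh : 12 * den ≤ 4 * (sh + 2 * den))
    (hK : tK.allB (mkW (mkP (mkQ den sh nu nl (tT.mp dP) (tG.mp dP) (tP.mp (dN 30))) w
      (cdf (tT.mp dP) tG) dl h4 h5) tK.getN (fun x y => mbs (tP.getN x) y) tF.getN).kok = true)
    (hPF : (tP.mp (dN 30)).allB (fun x ys => pfdb leb lmr (tF.mp dF) x ys (PD.get x)) = true)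
    (X : Px) (hX : X = Px.mk (mkW (mkP (mkQ den sh nu nl (tT.mp dP) (tG.mp dP) (tP.mp (dN 30))) w
      (cdf (tT.mp dP) tG) dl h4 h5) tK.getN (fun x y => mbs (tP.getN x) y) tF.getN)
      tM.getN tB.getN tC.getN tV.getN tA.getN)
    (hM : tM.allB X.kM = true) (hB : tB.allB X.kB = true) (hC : tC.allB X.kC = true)
    (hV : tV.allB X.kV = true) (hA : tA.allB X.kA = true)
    (hCB : CB.allB X.ckc = true)
    (hSG : (tG.mp dP).allB (X.soc WL) = true) (hW : WL.allB X.kW = true)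
    (hc0 : ∀ x ∈ al0, chk1 (X.W.cow CB WL) x = true)
    (hc1 : ∀ x ∈ al1, chk1 (X.W.cow CB WL) x = true) :
    StarOkX den nl nu dl (hgf h4 h5)
      (fun a b => (mkQ den sh nu nl (tT.mp dP) (tG.mp dP) (tP.mp (dN 30))).fw
        (a.map ccf) (b.map ccf))
      (fun a b c => X.xw (a.map ccf) (b.map ccf) (c.map ccf)) := by
  subst hX
  exact star_ofx3 (kt := tK.getN) (FN := tF.getN) (mo := fun x y => mbs (tP.getN x) y)
    (FB := tF.mp dF) (PD := PD) (CB := CB) (WL := WL) hF.fb hF.fn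
    (fun a i => cdf_ok (Q := mkQ den sh nu nl (tT.mp dP) (tG.mp dP) (tP.mp (dN 30))) rfl a i) hsh
    (fun x y h => mo_ok x y h) (Pw.kt_of hK) hPF hCB
    ⟨Px.tab hM, Px.tab hB, Px.tab hC, Px.tab hV, Px.tab hA, hSG, hW⟩ hc0 hc1

end

end Pool.FCK
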