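import Pool.Agent.FCK.Js
import Pool.Agent.FCS.Yg
import Pool.Agent.FCS.Yj
import Pool.Agent.FC7.StK

/-! # Star check with flows on triangles and kites: the star inequality for the concrete tables -/

set_option maxRecDepth 1000000

namespace Pool.FCK

open Pool.FCS Pool.FC7

noncomputable section

/-- the classes of compatible letters are equal -/
def qtOk (qt : Nat) : Bool := (List.range 27).all fun x => (List.range 27).all fun y =>
  !cmpf x y || Nat.beq (qcl qt (ccf x + 1)) (qcl qt (ccf y + 1))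

/-- THE STAR INEQUALITY with flows on triangles and kites -/
theorem star_ofk3 {den sh nu nl w dl h4 h5 : Nat} {T SG : BT (List (Nat × Nat))}
    {PF PD WL : BT (List Nat)} {cd : Nat → Nat → Nat} {kt FN : Nat → Nat} {mo : Nat → Nat → Bool}
    {FB : BT (List FCS.Fct)} {CB : BT (List CE2)} {M B C V ka : Nat → Nat}
    {qt : Nat} {N B' C' E Z U kb : Nat → Nat}
    (hF : ∀ p ∈ FB.toList, ∀ X ∈ p.2, Gf X)
    (hfn : ∀ l, ∀ X ∈ FCS.dF (FN l), Gf X)
    (hcd : ∀ a i, cd a i = cda ((mkQ den sh nu nl T SG PF).pos a 0).cl i)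
    (hsh : 12 * den ≤ 4 * (sh + 2 * den))
    (hmo : ∀ x y, mo x y = true → memF y (getF PF x) = true)
    (hkt : ∀ a, kt a ≠ 0 →
      (mkW (mkP (mkQ den sh nu nl T SG PF) w cd dl h4 h5) kt mo FN).kok a (kt a) = true)
    (hPF : PF.allB (fun x ys => pfdb leb lmr FB x ys (PD.get x)) = true)
    (hCB : CB.allB (Kx.mk (Px.mk (mkW (mkP (mkQ den sh nu nl T SG PF) w cd dl h4 h5) kt mo FN)
      M B C V ka) qt N B' C' E Z U kb).ckc = true)
    (hx : Kz (Kx.mk (Px.mk (mkW (mkP (mkQ den sh nu nl T SG PF) w cd dl h4 h5) kt mo FN)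
      M B C V ka) qt N B' C' E Z U kb) WL) (hq : qtOk qt = true)
    (hc0 : ∀ x ∈ al0, chk1 ((mkW (mkP (mkQ den sh nu nl T SG PF) w cd dl h4 h5) kt mo FN).cow
      CB WL) x = true)
    (hc1 : ∀ x ∈ al1, chk1 ((mkW (mkP (mkQ den sh nu nl T SG PF) w cd dl h4 h5) kt mo FN).cow
      CB WL) x = true) :
    StarOkK den nl nu dl (hgf h4 h5)
      (fun a b => (mkQ den sh nu nl T SG PF).fw (a.map ccf) (b.map ccf))
      (fun a b c => (Px.mk (mkW (mkP (mkQ den sh nu nl T SG PF) w cd dl h4 h5) kt mo FN)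
        M B C V ka).xw (a.map ccf) (b.map ccf) (c.map ccf))
      (fun a b c d => (Kx.mk (Px.mk (mkW (mkP (mkQ den sh nu nl T SG PF) w cd dl h4 h5) kt mo FN)
        M B C V ka) qt N B' C' E Z U kb).yw (a.map ccf) (b.map ccf) (c.map ccf)
          (d.map ccf)) := by
  intro D Y hY e he
  have hX : ∀ X, Gf X → NoX lle lmr lsol Y X := fun X h => by
    rw [lmr_eq]; exact hY.nox X h
  have hal : ∀ e, ∀ x ∈ Y.W e, lal x = true := by
    intro e x hx
    have h0 : Y.W e ≠ [] := by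
      intro h; rw [h] at hx; simp at hx
    exact (glf_w (hY.gl e h0)).2.2.2.2.1 x hx
  have hks : ∀ e, Y.W e ≠ [] → wsl wmT ((Y.mp ccf).c e) = 6 - ((Y.W e).map wl).sum :=
    fun e he => wsl_w (hY.gl e he)
  have hk3 : ∀ e, Y.W e ≠ [] → 6 - ((Y.W e).map wl).sum < 3 := fun e he =>
    (glf_w (hY.gl e he)).2.2.2.1
  have hP2 := fun r hr ha => p2_at3 (r := r) hY hr ha
  unfold chve
  rw [Finset.sum_add_distrib]
  refine star_allc4 (K := Kx.mk (Px.mk (mkW (mkP (mkQ den sh nu nl T SG PF) w cd dl h4 h5)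
    kt mo FN) M B C V ka) qt N B' C' E Z U kb) (f := blf)
    (cc := ccf) (lng := lng) (cmpS := cmpf) (le := lle) (ml := lmr) (FB := FB) (PD := PD)
    (CB := CB) (WL := WL) (glY := glY) hY.ok (fun p hp X hx => hX X (hF p hp X hx))
    ⟨⟨lvj_ok, lmj_ok, fun e x hx => (lt_all (hal e x hx)).1, fun e x hx =>
      (lt_all (hal e x hx)).2⟩, ?_, ?_, hmo, hkt, fun l X hx => hX X (hfn l X hx)⟩
    hY.nr (fun e he => glY_cc (hY.gl e he)) ?_ ?_ ?_
    (fun g v h x hx => lev_all h x hx) (fun v x hx => (lg_all hx).1) ?_ ?_ ?_ ?_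
    (fun r _ _ _ v _ => rfl) hcd hsh (fun e x hx => ?_) hPF hCB hx
    (fun x y h => Nat.eq_of_beq_eq_true (cmpf_all (f := fun x y =>
      Nat.beq (qcl qt (ccf x + 1)) (qcl qt (ccf y + 1))) hq h))
    (fun x y h => ?_) ?_ e he
  · -- conflicts of the classes, first table
    intro r hr ha hb
    show Nat.testBit (Nat.shiftRight (gFj (wsl wmT ((Y.mp ccf).c r)) (ccf ((Y.W r).getD 0 0) + 1))
      (Nat.mul 64 (clL (nfc bmT wmT smT (enc ((Y.W (Y.al r)).map ccf))))))
      (clF (nfc bmT wmT smT (enc ((Y.W (Y.al (Y.nx r))).map ccf)))) = false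
    rw [hks r hr, (cl_w (hY.gl _ ha)).1, (cl_w (hY.gl _ hb)).2]
    obtain ⟨h2, h3⟩ := p4_at3 hY hr ha hb
    have h4 := cFb_all (hk3 r hr) (hk3 _ ha) (hk3 _ hb) (hP2 r hr ha) h2 h3
    unfold cFb at h4
    rw [tb_testBit] at h4
    have e1 : ∀ N s i : Nat, Nat.testBit (Nat.shiftRight N s) i = Nat.testBit N (s + i) :=
      fun N s i => Nat.testBit_shiftRight ..
    rw [e1]
    exact h4
  · -- conflicts of the classes, second table
    intro r hr ha hb
    show Nat.testBit (Nat.shiftRight (gLj (wsl wmT ((Y.mp ccf).c r)) (ccf ((Y.W r).getD 0 0) + 1))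
      (Nat.mul 64 (clF (nfc bmT wmT smT (enc ((Y.W (Y.al (Y.nx r))).map ccf))))))
      (clL (nfc bmT wmT smT (enc ((Y.W (Y.al r)).map ccf)))) = false
    rw [hks r hr, (cl_w (hY.gl _ ha)).1, (cl_w (hY.gl _ hb)).2]
    obtain ⟨h2, h3⟩ := p4_at3 hY hr ha hb
    have h4 := cLb_all (hk3 r hr) (hk3 _ ha) (hk3 _ hb) (hP2 r hr ha) h2 h3
    unfold cLb at h4
    rw [tb_testBit] at h4
    have e1 : ∀ N s i : Nat, Nat.testBit (Nat.shiftRight N s) i = Nat.testBit N (s + i) :=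
      fun N s i => Nat.testBit_shiftRight ..
    rw [e1]
    exact h4
  · -- compatible letters
    intro x y h
    have h0 := cmpf_all (f := fun x y => cme (ccf x + 1) (ccf y + 1) &&
      cmb (blf (ccf x) + 1) (blf (ccf y) + 1)) (by decide +kernel) h
    rw [Bool.and_eq_true] at h0
    exact h0
  · -- letters
    intro e x hx
    have hl := hal e x hx
    obtain ⟨a1, a2, a3, a4, a5, a6, a7, a8, a9⟩ := let_all hl
    exact ⟨a1, a2, a3, a4, a5, a6, a7, a8, fun g hgg => leb_all hl hgg⟩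
  · -- impossible letters
    intro e i hi p n hp hn
    have h0 : Y.W e ≠ [] := by
      intro h; rw [h] at hi; simp at hi
    show imp (wsl wmT ((Y.mp ccf).c e)) _ p n = false
    rw [hks e h0]
    exact imp_ok (hY.gl e h0) hi hp hn
  · -- pairs of letters
    intro r hr ha
    show r2b (wsl wmT ((Y.mp ccf).c r)) _ (wsl wmT ((Y.mp ccf).c (Y.al r))) _ = true
    rw [hks r hr, hks _ ha]
    exact r2_all (hk3 r hr) (hk3 _ ha) (hP2 r hr ha)
  · intro r hr ha v hv
    show ua (wsl wmT ((Y.mp ccf).c r)) v (wsl wmT ((Y.mp ccf).c (Y.al r))) _ = true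
    rw [hks r hr, hks _ ha]
    exact ua_all (hk3 r hr) (hk3 _ ha) (hP2 r hr ha) hv
  · intro r hr ha v hv
    show ub (wsl wmT ((Y.mp ccf).c r)) v (wsl wmT ((Y.mp ccf).c (Y.al r))) _ = true
    rw [hks r hr, hks _ ha]
    have h1 := hP2 (Y.al r) ha (by rw [hY.ok.alal]; exact hr)
    rw [hY.ok.alal] at h1
    exact ub_all (hk3 r hr) (hk3 _ ha) h1 hv
  · -- three vertices
    intro r hr ha hb
    show gk (wsl wmT ((Y.mp ccf).c r)) (ccf ((Y.W r).getD 0 0) + 1)
      (nfc bmT wmT smT (enc ((Y.W (Y.al r)).map ccf)))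
      (nfc bmT wmT smT (enc ((Y.W (Y.al (Y.nx r))).map ccf))) = false
    rw [hks r hr, gk_w (hY.gl _ ha) (hY.gl _ hb)]
    obtain ⟨h2, h3⟩ := p4_at3 hY hr ha hb
    exact gk_all (hk3 r hr) (hk3 _ ha) (hk3 _ hb) (hP2 r hr ha) h2 h3
  · -- prices of the letters
    obtain ⟨-, -, -, a4, a5, -⟩ := let_all (hal e x hx)
    show hdf h4 h5 (ccf x + 1) = hgf h4 h5 x
    unfold hdf hgf
    rw [a4, a5]
    cases lsol x
    · cases lng x <;> rfl
    · rfl
  · -- solid letters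
    have h0 := cmpf_all (f := fun x y => lsol (ccf x) == lsol (ccf y)) (by decide +kernel) h
    exact eq_of_beq h0
  · -- all words
    exact glY_all hc0 hc1

/-- THE STAR INEQUALITY with flows on triangles and kites, from the checks of the packed tables -/
theorem star_ofk4 {den sh nu nl w dl h4 h5 : Nat} {tT tG tP tK tF tM tB tC tV tA : BT Nat}
    {tN tB' tC' tE tY tU tb : BT Nat}
    {PD WL : BT (List Nat)} {CB : BT (List CE2)} (hF : OkT tF)
    (hsh : 12 * den ≤ 4 * (sh + 2 * den))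
    (hK : tK.allB (mkW (mkP (mkQ den sh nu nl (tT.mp dP) (tG.mp dP) (tP.mp (dN 30))) w
      (cdf (tT.mp dP) tG) dl h4 h5) tK.getN (fun x y => mbs (tP.getN x) y) tF.getN).kok = true)
    (hPF : (tP.mp (dN 30)).allB (fun x ys => pfdb leb lmr (tF.mp dF) x ys (PD.get x)) = true)
    (X : Px) (hX : X = Px.mk (mkW (mkP (mkQ den sh nu nl (tT.mp dP) (tG.mp dP) (tP.mp (dN 30))) w
      (cdf (tT.mp dP) tG) dl h4 h5) tK.getN (fun x y => mbs (tP.getN x) y) tF.getN)
      tM.getN tB.getN tC.getN tV.getN tA.getN) (qt : Nat) (hq : qtOk qt = true)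
    (K : Kx) (hKx : K = Kx.mk X qt tN.getN tB'.getN tC'.getN tE.getN tY.getN tU.getN tb.getN)
    (hM : tM.allB X.kM = true) (hB : tB.allB X.kB = true) (hC : tC.allB X.kC = true)
    (hV : tV.allB X.kV = true) (hA : tA.allB X.kA = true)
    (hB' : tB'.allB K.kB = true) (hC' : tC'.allB K.kC = true) (hE : tE.allB K.kE = true)
    (hY : tY.allB K.kY = true) (hU : tU.allB K.kU = true) (hb : tb.allB K.kkb = true)
    (hCB : CB.allB K.ckc = true)
    (hSG : (tG.mp dP).allB (K.soc WL) = true) (hW : WL.allB K.kW = true)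
    (hc0 : ∀ x ∈ al0, chk1 (X.W.cow CB WL) x = true)
    (hc1 : ∀ x ∈ al1, chk1 (X.W.cow CB WL) x = true) :
    StarOkK den nl nu dl (hgf h4 h5)
      (fun a b => (mkQ den sh nu nl (tT.mp dP) (tG.mp dP) (tP.mp (dN 30))).fw
        (a.map ccf) (b.map ccf))
      (fun a b c => X.xw (a.map ccf) (b.map ccf) (c.map ccf))
      (fun a b c d => K.yw (a.map ccf) (b.map ccf) (c.map ccf) (d.map ccf)) := by
  subst hKx
  subst hX
  exact star_ofk3 (kt := tK.getN) (FN := tF.getN) (mo := fun x y => mbs (tP.getN x) y)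
    (FB := tF.mp dF) (PD := PD) (CB := CB) (WL := WL) hF.fb hF.fn
    (fun a i => cdf_ok (Q := mkQ den sh nu nl (tT.mp dP) (tG.mp dP) (tP.mp (dN 30))) rfl a i) hsh
    (fun x y h => mo_ok x y h) (Pw.kt_of hK) hPF hCB
    ⟨Px.tab hM, Px.tab hB, Px.tab hC, Px.tab hV, Px.tab hA, Px.tab hB', Px.tab hC', Px.tab hE,
      Px.tab hY, Px.tab hU, Px.tab hb, hSG, hW⟩ hq hc0 hc1

end

end Pool.FCK
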