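import Pool.Agent.FC7.StD
import Pool.Agent.FC7.SyE
import Pool.Agent.FCS.Cen

/-! # The facts of a tree -/

namespace Pool.FCK

open Pool.FCS

/-- the facts of a list hold -/
def okl (l : List Fct) : Prop := ∀ X ∈ l, Pool.FC7.NoL X.1 X.2

theorem okl_of {l m : List Fct} (e : l = m) (h : ∀ X ∈ m, Pool.FC7.NoL X.1 X.2) : okl l := by
  subst e; exact h

theorem fa_lf {α : Type} {C : α → Prop} : ∀ p ∈ (BT.lf : BT α).toList, C p.2 :=
  fun _ h => absurd h List.not_mem_nil

theorem fa_nd {α : Type} {C : α → Prop} {l r : BT α} {m : Nat} {v : α}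
    (hl : ∀ p ∈ l.toList, C p.2) (hv : C v) (hr : ∀ p ∈ r.toList, C p.2) :
    ∀ p ∈ (BT.nd l m v r).toList, C p.2 := by
  intro p hp
  have hp' : p ∈ l.toList ++ (m, v) :: r.toList := hp
  rcases List.mem_append.1 hp' with h | h
  · exact hl p h
  · rcases List.mem_cons.1 h with h | h
    · subst h; exact hv
    · exact hr p h

theorem flat_nol {t : BT (List Fct)} (h : ∀ p ∈ t.toList, okl p.2) :
    ∀ X ∈ t.toList.flatMap (fun p => p.2), Pool.FC7.NoL X.1 X.2 := by
  intro X hX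
  obtain ⟨p, hp, hX⟩ := List.mem_flatMap.1 hX
  exact h p hp X hX

theorem flat_okf {t : BT (List Fct)} (h : ∀ p ∈ t.toList, p.2.all Pool.FC7.okf = true) :
    (t.toList.flatMap (fun p => p.2)).all Pool.FC7.okf = true := by
  rw [List.all_eq_true]
  intro X hX
  obtain ⟨p, hp, hX⟩ := List.mem_flatMap.1 hX
  exact List.all_eq_true.1 (h p hp) X hX

end Pool.FCK
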