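import Mathlib

set_option autoImplicit false

/-!
# Sums over four points of a linearly ordered set
-/

namespace Pool.Agent.FCK

open Finset

variable {ι : Type*} [Fintype ι] [LinearOrder ι] {M : Type*} [AddCommMonoid M]

/-- sum over all quadruples -/
def S4 (f : ι → ι → ι → ι → M) : M := ∑ p, ∑ q, ∑ r, ∑ s, f p q r s

theorem S4_add (f g : ι → ι → ι → ι → M) :
    S4 (fun p q r s => f p q r s + g p q r s) = S4 f + S4 g := by
  simp only [S4, sum_add_distrib]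

theorem S4_t1 (f : ι → ι → ι → ι → M) : S4 f = S4 (fun p q r s => f q p r s) := sum_comm

theorem S4_t2 (f : ι → ι → ι → ι → M) : S4 f = S4 (fun p q r s => f p r q s) :=
  sum_congr rfl fun _ _ => sum_comm

theorem S4_t3 (f : ι → ι → ι → ι → M) : S4 f = S4 (fun p q r s => f p q s r) :=
  sum_congr rfl fun _ _ => sum_congr rfl fun _ _ => sum_comm

/-- sum over the increasing quadruples -/
def I4 (f : ι → ι → ι → ι → M) : M :=
  S4 (fun p q r s => if p < q ∧ q < r ∧ r < s then f p q r s else 0)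

theorem I4_add (f g : ι → ι → ι → ι → M) :
    I4 (fun p q r s => f p q r s + g p q r s) = I4 f + I4 g := by
  rw [I4, I4, I4, ← S4_add]
  congr 1
  funext p q r s
  split_ifs <;> simp
theorem ren0 (g : ι → ι → ι → ι → M) :
    S4 (fun a b c d => if a < b ∧ b < c ∧ c < d then g a b c d else 0) =
      I4 (fun p q r s => g p q r s) := by
  rfl

theorem ren1 (g : ι → ι → ι → ι → M) :
    S4 (fun a b c d => if a < b ∧ b < d ∧ d < c then g a b c d else 0) =
      I4 (fun p q r s => g p q s r) := by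
  rw [S4_t3]
  rfl

theorem ren2 (g : ι → ι → ι → ι → M) :
    S4 (fun a b c d => if a < c ∧ c < b ∧ b < d then g a b c d else 0) =
      I4 (fun p q r s => g p r q s) := by
  rw [S4_t2]
  rfl

theorem ren3 (g : ι → ι → ι → ι → M) :
    S4 (fun a b c d => if a < d ∧ d < b ∧ b < c then g a b c d else 0) =
      I4 (fun p q r s => g p r s q) := by
  rw [S4_t3, S4_t2]
  rfl

theorem ren4 (g : ι → ι → ι → ι → M) :
    S4 (fun a b c d => if a < c ∧ c < d ∧ d < b then g a b c d else 0) =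
      I4 (fun p q r s => g p s q r) := by
  rw [S4_t2, S4_t3]
  rfl

theorem ren5 (g : ι → ι → ι → ι → M) :
    S4 (fun a b c d => if a < d ∧ d < c ∧ c < b then g a b c d else 0) =
      I4 (fun p q r s => g p s r q) := by
  rw [S4_t2, S4_t3, S4_t2]
  rfl

theorem ren6 (g : ι → ι → ι → ι → M) :
    S4 (fun a b c d => if c < a ∧ a < b ∧ b < d then g a b c d else 0) =
      I4 (fun p q r s => g q r p s) := by
  rw [S4_t2, S4_t1]
  rfl

theorem ren7 (g : ι → ι → ι → ι → M) :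
    S4 (fun a b c d => if d < a ∧ a < b ∧ b < c then g a b c d else 0) =
      I4 (fun p q r s => g q r s p) := by
  rw [S4_t3, S4_t2, S4_t1]
  rfl

theorem ren8 (g : ι → ι → ι → ι → M) :
    S4 (fun a b c d => if c < a ∧ a < d ∧ d < b then g a b c d else 0) =
      I4 (fun p q r s => g q s p r) := by
  rw [S4_t2, S4_t1, S4_t3]
  rfl

theorem ren9 (g : ι → ι → ι → ι → M) :
    S4 (fun a b c d => if d < a ∧ a < c ∧ c < b then g a b c d else 0) =
      I4 (fun p q r s => g q s r p) := by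
  rw [S4_t2, S4_t3, S4_t2, S4_t1]
  rfl

theorem ren10 (g : ι → ι → ι → ι → M) :
    S4 (fun a b c d => if c < d ∧ d < a ∧ a < b then g a b c d else 0) =
      I4 (fun p q r s => g r s p q) := by
  rw [S4_t2, S4_t1, S4_t3, S4_t2]
  rfl

theorem ren11 (g : ι → ι → ι → ι → M) :
    S4 (fun a b c d => if d < c ∧ c < a ∧ a < b then g a b c d else 0) =
      I4 (fun p q r s => g r s q p) := by
  rw [S4_t2, S4_t1, S4_t3, S4_t2, S4_t1]
  rfl

private theorem pt (g : M) (a b c d : ι) :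
    (if a < b ∧ c ≠ a ∧ c ≠ b ∧ d ≠ a ∧ d ≠ b ∧ c ≠ d then g else 0) =
      (if a < b ∧ b < c ∧ c < d then g else 0) +
      (if a < b ∧ b < d ∧ d < c then g else 0) +
      (if a < c ∧ c < b ∧ b < d then g else 0) +
      (if a < d ∧ d < b ∧ b < c then g else 0) +
      (if a < c ∧ c < d ∧ d < b then g else 0) +
      (if a < d ∧ d < c ∧ c < b then g else 0) +
      (if c < a ∧ a < b ∧ b < d then g else 0) +
      (if d < a ∧ a < b ∧ b < c then g else 0) +
      (if c < a ∧ a < d ∧ d < b then g else 0) +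
      (if d < a ∧ a < c ∧ c < b then g else 0) +
      (if c < d ∧ d < a ∧ a < b then g else 0) +
      (if d < c ∧ c < a ∧ a < b then g else 0) := by
  by_cases h : a < b ∧ c ≠ a ∧ c ≠ b ∧ d ≠ a ∧ d ≠ b ∧ c ≠ d
  · obtain ⟨h1, h2, h3, h4, h5, h6⟩ := h
    rw [if_pos ⟨h1, h2, h3, h4, h5, h6⟩]
    rcases lt_or_gt_of_ne h2 with k2 | k2 <;> rcases lt_or_gt_of_ne h3 with k3 | k3 <;>
      rcases lt_or_gt_of_ne h4 with k4 | k4 <;> rcases lt_or_gt_of_ne h5 with k5 | k5 <;>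
      rcases lt_or_gt_of_ne h6 with k6 | k6 <;>
      first
      | (exfalso; order)
      | simp only [h1, k2, k3, k4, k5, k6, not_lt_of_gt h1, not_lt_of_gt k2, not_lt_of_gt k3,
          not_lt_of_gt k4, not_lt_of_gt k5, not_lt_of_gt k6, and_true, and_false, false_and,
          true_and, if_true, if_false, add_zero, zero_add, and_self]
  · rw [if_neg h]
    symm
    have e : ∀ {P : Prop} [Decidable P], (P → a < b ∧ c ≠ a ∧ c ≠ b ∧ d ≠ a ∧ d ≠ b ∧ c ≠ d) →
        (if P then g else 0) = 0 := fun hP => if_neg (fun h' => h (hP h'))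
    rw [e (P := a < b ∧ b < c ∧ c < d) (by rintro ⟨x, y, z⟩; refine ⟨?_, ?_, ?_, ?_, ?_, ?_⟩ <;> order), e (P := a < b ∧ b < d ∧ d < c) (by rintro ⟨x, y, z⟩; refine ⟨?_, ?_, ?_, ?_, ?_, ?_⟩ <;> order), e (P := a < c ∧ c < b ∧ b < d) (by rintro ⟨x, y, z⟩; refine ⟨?_, ?_, ?_, ?_, ?_, ?_⟩ <;> order), e (P := a < d ∧ d < b ∧ b < c) (by rintro ⟨x, y, z⟩; refine ⟨?_, ?_, ?_, ?_, ?_, ?_⟩ <;> order), e (P := a < c ∧ c < d ∧ d < b) (by rintro ⟨x, y, z⟩; refine ⟨?_, ?_, ?_, ?_, ?_, ?_⟩ <;> order), e (P := a < d ∧ d < c ∧ c < b) (by rintro ⟨x, y, z⟩; refine ⟨?_, ?_, ?_, ?_, ?_, ?_⟩ <;> order), e (P := c < a ∧ a < b ∧ b < d) (by rintro ⟨x, y, z⟩; refine ⟨?_, ?_, ?_, ?_, ?_, ?_⟩ <;> order), e (P := d < a ∧ a < b ∧ b < c) (by rintro ⟨x, y, z⟩; refine ⟨?_, ?_, ?_, ?_, ?_, ?_⟩ <;> order), e (P := c < a ∧ a < d ∧ d < b) (by rintro ⟨x, y, z⟩; refine ⟨?_, ?_, ?_, ?_, ?_, ?_⟩ <;> order), e (P := d < a ∧ a < c ∧ c < b) (by rintro ⟨x, y,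 z⟩; refine ⟨?_, ?_, ?_, ?_, ?_, ?_⟩ <;> order), e (P := c < d ∧ d < a ∧ a < b) (by rintro ⟨x, y, z⟩; refine ⟨?_, ?_, ?_, ?_, ?_, ?_⟩ <;> order), e (P := d < c ∧ c < a ∧ a < b) (by rintro ⟨x, y, z⟩; refine ⟨?_, ?_, ?_, ?_, ?_, ?_⟩ <;> order)]
    simp

/-- pairs `a < b` and two further points -/
theorem L12 (g : ι → ι → ι → ι → M) :
    S4 (fun a b c d => if a < b ∧ c ≠ a ∧ c ≠ b ∧ d ≠ a ∧ d ≠ b ∧ c ≠ d then g a b c d else 0) =
      I4 (fun p q r s => g p q r s + g p q s r + g p r q s + g p r s q + g p s q r + g p s r q + g q r p s + g q r s p + g q s p r + g q s r p + g r s p q + g r s q p) := by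
  simp only [I4_add]
  rw [← ren0, ← ren1, ← ren2, ← ren3, ← ren4, ← ren5, ← ren6, ← ren7, ← ren8, ← ren9, ← ren10, ← ren11]
  rw [← S4_add, ← S4_add, ← S4_add, ← S4_add, ← S4_add, ← S4_add, ← S4_add, ← S4_add, ← S4_add, ← S4_add, ← S4_add]
  congr 1
  funext a b c d
  exact pt _ a b c d

end Pool.Agent.FCK
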